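import Pool.Agent.MP_d23910_co.Cert

set_option autoImplicit false

namespace Pool.Agent.MP_d23910_co

lemma reg0 : chkR [.rho true 0, .rho true (1 / 3), .zz 0, .rho false (1 / 3), .rho false 0]
    [1, 2, 2, 1] (39 / 50) (1 / 100) 8 = true := by decide +kernel

lemma reg1 : chkR [.rho true 0, .rho true (1 / 3), .zz (7 / 20), .zz (-7 / 20), .rho false (1 / 3), .rho false 0]
    [1, 2, 3, 2, 1] (43 / 50) (1 / 100) 18 = true := by decide +kernel

lemma reg2 : chkR [.rho true 0, .rho true (1 / 3), .zz (46 / 125), .zz (-46 / 125), .rho false (1 / 3), .rho false 0]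
    [1, 2, 3, 2, 1] (26 / 25) (1 / 100) 1 = true := by decide +kernel

lemma reg3 : chkR [.rho true 0, .rho true (1 / 3), .zz (46 / 125), .zz (-46 / 125), .rho false (1 / 3), .rho false 0]
    [1, 2, 3, 2, 1] (21 / 20) (1 / 400) 1 = true := by decide +kernel

lemma reg4 : chkR [.rho true 0, .rho true (1 / 3), .zz (3 / 5), .zz 0, .zz (-3 / 5), .rho false (1 / 3), .rho false 0]
    [1, 2, 3, 3, 2, 1] (421 / 400) (1 / 100) 11 = true := by decide +kernel

lemma reg5 : chkR [.rho true 0, .rho true (1 / 3), .rho true 1, .zz 0, .rho false 1, .rho false (1 / 3), .rho false 0]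
    [1, 2, 4, 4, 2, 1] (93 / 80) (1 / 100) 9 = true := by decide +kernel

lemma reg6 : chkR [.rho true 0, .rho true (1 / 3), .rho true 1, .zz (3 / 10), .zz (-3 / 10), .rho false 1, .rho false (1 / 3), .rho false 0]
    [1, 2, 4, 4, 4, 2, 1] (501 / 400) (1 / 100) 15 = true := by decide +kernel

lemma reg7 : chkR [.rho true 0, .rho true (1 / 3), .rho true 1, .zz (11 / 20), .zz 0, .zz (-11 / 20), .rho false 1, .rho false (1 / 3), .rho false 0]
    [1, 2, 4, 4, 4, 4, 2, 1] (561 / 400) (1 / 100) 15 = true := by decide +kernel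

lemma reg8 : chkR [.rho true 0, .rho true (1 / 3), .rho true 1, .zz (3 / 4), .zz (1 / 4), .zz (-1 / 4), .zz (-3 / 4), .rho false 1, .rho false (1 / 3), .rho false 0]
    [1, 2, 4, 5, 5, 5, 4, 2, 1] (621 / 400) (1 / 100) 12 = true := by decide +kernel

lemma reg9 : chkR [.rho true 0, .rho true (1 / 3), .rho true 1, .zz (19 / 20), .zz (3 / 10), .zz (-3 / 10), .zz (-19 / 20), .rho false 1, .rho false (1 / 3), .rho false 0]
    [1, 2, 4, 5, 5, 5, 4, 2, 1] (669 / 400) (1 / 100) 13 = true := by decide +kernel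

lemma reg10 : chkR [.rho true 0, .rho true (1 / 3), .rho true 1, .zz (11 / 10), .zz (11 / 20), .zz 0, .zz (-11 / 20), .zz (-11 / 10), .rho false 1, .rho false (1 / 3), .rho false 0]
    [1, 2, 4, 5, 6, 6, 5, 4, 2, 1] (721 / 400) (1 / 100) 10 = true := by decide +kernel

lemma reg11 : chkR [.rho true 0, .rho true (1 / 3), .rho true 1, .zz (5 / 4), .zz (13 / 20), .zz 0, .zz (-13 / 20), .zz (-5 / 4), .rho false 1, .rho false (1 / 3), .rho false 0]
    [1, 2, 4, 5, 6, 6, 5, 4, 2, 1] (761 / 400) (1 / 100) 10 = true := by decide +kernel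

theorem small {r : ℝ} (h1 : 39 / 50 ≤ r) (h2 : r < 2) : (sphG r).Colorable 9 := by
  by_cases c0 : r < (((43 / 50) : ℚ) : ℝ)
  · exact chkR_spec reg0 (by norm_num) (by norm_num) (by norm_num) (by push_cast; linarith) c0
  by_cases c1 : r < (((26 / 25) : ℚ) : ℝ)
  · exact chkR_spec reg1 (by norm_num) (by norm_num) (by norm_num) (not_lt.1 c0) c1
  by_cases c2 : r < (((21 / 20) : ℚ) : ℝ)
  · exact chkR_spec reg2 (by norm_num) (by norm_num) (by norm_num) (not_lt.1 c1) c2
  by_cases c3 : r < (((421 / 400) : ℚ) : ℝ)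
  · exact chkR_spec reg3 (by norm_num) (by norm_num) (by norm_num) (not_lt.1 c2) c3
  by_cases c4 : r < (((93 / 80) : ℚ) : ℝ)
  · exact chkR_spec reg4 (by norm_num) (by norm_num) (by norm_num) (not_lt.1 c3) c4
  by_cases c5 : r < (((501 / 400) : ℚ) : ℝ)
  · exact chkR_spec reg5 (by norm_num) (by norm_num) (by norm_num) (not_lt.1 c4) c5
  by_cases c6 : r < (((561 / 400) : ℚ) : ℝ)
  · exact chkR_spec reg6 (by norm_num) (by norm_num) (by norm_num) (not_lt.1 c5) c6
  by_cases c7 : r < (((621 / 400) : ℚ) : ℝ)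
  · exact chkR_spec reg7 (by norm_num) (by norm_num) (by norm_num) (not_lt.1 c6) c7
  by_cases c8 : r < (((669 / 400) : ℚ) : ℝ)
  · exact chkR_spec reg8 (by norm_num) (by norm_num) (by norm_num) (not_lt.1 c7) c8
  by_cases c9 : r < (((721 / 400) : ℚ) : ℝ)
  · exact chkR_spec reg9 (by norm_num) (by norm_num) (by norm_num) (not_lt.1 c8) c9
  by_cases c10 : r < (((761 / 400) : ℚ) : ℝ)
  · exact chkR_spec reg10 (by norm_num) (by norm_num) (by norm_num) (not_lt.1 c9) c10
  by_cases c11 : r < (((801 / 400) : ℚ) : ℝ)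
  · exact chkR_spec reg11 (by norm_num) (by norm_num) (by norm_num) (not_lt.1 c10) c11
  exact absurd (show r < (((801 / 400) : ℚ) : ℝ) by push_cast; linarith) c11

end Pool.Agent.MP_d23910_co
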