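import Pool.Agent.MP_d23910_co.Cert
import Pool.Agent.MP_d23910_co.Small

-- ======== part 0: formerly Pool.Agent.MP_d23910_co.Tiny
section MrgPart0

set_option autoImplicit false

namespace Pool.Agent.MP_d23910_co

open Real

lemma octants {r : ℝ} (hr : 0 ≤ r) (h : 2 * r ^ 2 < 1) : (sphG r).Colorable 9 := by
  classical
  have C : (sphG r).Coloring (Fin 3 → Bool) := SimpleGraph.Coloring.mk
    (fun p i => decide (0 ≤ p.1 i)) (by
      intro p q hpq hc
      rw [sphG_adj, Fin.sum_univ_three] at hpq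
      have h1 := (mem_sph hr _).1 p.2
      have h2 := (mem_sph hr _).1 q.2
      rw [Fin.sum_univ_three] at h1 h2
      have k : ∀ i, 0 ≤ p.1 i * q.1 i := by
        intro i
        have := congrFun hc i
        simp only [decide_eq_decide] at this
        by_cases h0 : 0 ≤ p.1 i
        · exact mul_nonneg h0 (this.1 h0)
        · exact mul_nonneg_of_nonpos_of_nonpos (le_of_not_ge h0)
            (le_of_not_ge fun h' => h0 (this.2 h'))
      nlinarith [k 0, k 1, k 2])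
  exact C.colorable.mono (by simp)

lemma adj_G {r : ℝ} (hr : 0 < r) {x y x' y' : ℝ}
    (h : (-(r * sin x * cos y) - -(r * sin x' * cos y')) ^ 2
      + (r * sin x * sin y - r * sin x' * sin y') ^ 2 + (r * cos x - r * cos x') ^ 2 = 1) :
    G x x' (cos (y - y')) = 1 - 1 / (2 * r ^ 2) := by
  unfold G
  rw [cos_sub]
  field_simp
  have a1 := sin_sq_add_cos_sq x
  have a2 := sin_sq_add_cos_sq x'
  have a3 := sin_sq_add_cos_sq y
  have a4 := sin_sq_add_cos_sq y'
  linear_combination (-1) * h + r ^ 2 * a1 + r ^ 2 * a2 + r ^ 2 * sin x ^ 2 * a3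
    + r ^ 2 * sin x' ^ 2 * a4

lemma sector {y y' : ℝ} (h0 : 0 ≤ y) (h1 : y < 2 * π) (h0' : 0 ≤ y') (h1' : y' < 2 * π)
    (h : ⌊y / (2 * π / (3 * (2 : ℕ)))⌋₊ = ⌊y' / (2 * π / (3 * (2 : ℕ)))⌋₊) :
    1 / 2 < cos (y - y') := by
  obtain ⟨p1, p2, -⟩ := cell_facts (k := 2) (by norm_num) h0 h1
  obtain ⟨q1, q2, -⟩ := cell_facts (k := 2) (by norm_num) h0' h1'
  rw [← h] at q1 q2
  have e : 2 * π / (3 * ((2 : ℕ) : ℝ)) = π / 3 := by push_cast; ring
  rw [e] at p1 p2 q1 q2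
  rw [← cos_pi_div_three, ← cos_abs (y - y')]
  refine cos_lt_cos_of_nonneg_of_le_pi (abs_nonneg _) (by linarith [pi_pos]) ?_
  rw [abs_lt]; constructor <;> linarith

lemma barrel {r : ℝ} (hr : 0 < r) (h1 : 1 ≤ 2 * r ^ 2) (h2 : r < 39 / 50) :
    (sphG r).Colorable 9 := by
  classical
  choose X Y a1 a2 a3 a4 a5 a6 a7 using polar hr
  have ex : ∀ p, ∃ z, 0 ≤ z ∧ z < 2 * π ∧ (0 ≤ cos (X p) → z = Y p) ∧
      (cos (X p) < 0 → cos z = -cos (Y p) ∧ sin z = -sin (Y p)) := by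
    intro p
    by_cases h : 0 ≤ cos (X p)
    · exact ⟨Y p, a3 p, a4 p, fun _ => rfl, fun h' => absurd h (not_le.2 h')⟩
    by_cases h' : Y p < π
    · exact ⟨Y p + π, by linarith [a3 p, pi_pos], by linarith, fun h' => absurd h' h,
        fun _ => ⟨cos_add_pi _, sin_add_pi _⟩⟩
    · exact ⟨Y p - π, by linarith, by linarith [a4 p, pi_pos], fun h' => absurd h' h,
        fun _ => ⟨cos_sub_pi _, sin_sub_pi _⟩⟩
  choose Z b1 b2 b3 b4 using ex
  set σ := 1 / (2 * r) with hσ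
  have σ0 : 0 < σ := by positivity
  have σc : 1 - 1 / (2 * r ^ 2) = 1 - 2 * σ ^ 2 := by rw [hσ]; field_simp
  have σr : r * σ = 1 / 2 := by rw [hσ]; field_simp
  have σ1 : 64 / 100 ≤ σ := by nlinarith
  have σ2 : 2 * σ ^ 2 ≤ 1 := by
    have : 1 / (2 * r ^ 2) ≤ 1 := by rw [div_le_one (by positivity)]; exact h1
    linarith
  rw [SimpleGraph.colorable_iff_exists_bdd_nat_coloring]
  refine ⟨SimpleGraph.Coloring.mk (fun p => if sin (X p) < σ then 6 else
    ⌊Z p / (2 * π / (3 * (2 : ℕ)))⌋₊) ?_, ?_⟩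
  · intro p q hpq hc
    rw [sphG_adj, Fin.sum_univ_three, a5 p, a6 p, a7 p, a5 q, a6 q, a7 q] at hpq
    have hG := adj_G hr hpq
    rw [σc, G] at hG
    have sp := sin_nonneg_of_nonneg_of_le_pi (a1 p) (a2 p)
    have sq := sin_nonneg_of_nonneg_of_le_pi (a1 q) (a2 q)
    have cp := (cell_facts (k := 2) (by norm_num) (b1 p) (b2 p)).2.2
    have cq := (cell_facts (k := 2) (by norm_num) (b1 q) (b2 q)).2.2
    have tp := sin_sq_add_cos_sq (X p)
    have tq := sin_sq_add_cos_sq (X q)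
    have w1 := cos_le_one (Y p - Y q)
    have w2 := neg_one_le_cos (Y p - Y q)
    split_ifs at hc with c1 c2 c2
    · have s1 : sin (X p) * sin (X q) < σ ^ 2 := by nlinarith
      have s0 := mul_nonneg sp sq
      have s2 : (1 - σ ^ 2) ^ 2 < (cos (X p) * cos (X q)) ^ 2 := by
        have u1 : 1 - σ ^ 2 < cos (X p) ^ 2 := by nlinarith
        have u2 : 1 - σ ^ 2 < cos (X q) ^ 2 := by nlinarith
        rw [mul_pow, _root_.sq (1 - σ ^ 2)]
        exact mul_lt_mul'' u1 u2 (by linarith) (by linarith)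
      have s4 : 1 - σ ^ 2 < |cos (X p) * cos (X q)| :=
        lt_of_pow_lt_pow_left₀ 2 (abs_nonneg _) (by rwa [sq_abs])
      have s5 := mul_le_mul_of_nonneg_left w1 s0
      have s6 := mul_le_mul_of_nonneg_left w2 s0
      rcases lt_abs.1 s4 with h | h <;> linarith
    · omega
    · omega
    · have hs := sector (b1 p) (b2 p) (b1 q) (b2 q) hc
      push Not at c1 c2
      have s1 : σ ^ 2 ≤ sin (X p) * sin (X q) := by rw [_root_.sq]; gcongr
      have s3 : 4 / 10 ≤ σ ^ 2 := by nlinarith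
      rw [cos_sub] at hs hG
      rcases le_or_gt 0 (cos (X p)) with d1 | d1 <;> rcases le_or_gt 0 (cos (X q)) with d2 | d2
      · rw [b3 p d1, b3 q d2] at hs
        nlinarith [mul_nonneg d1 d2]
      · rw [b3 p d1, (b4 q d2).1, (b4 q d2).2] at hs
        nlinarith [mul_nonneg d1 (neg_pos.2 d2).le]
      · rw [b3 q d2, (b4 p d1).1, (b4 p d1).2] at hs
        nlinarith [mul_nonneg d2 (neg_pos.2 d1).le]
      · rw [(b4 q d2).1, (b4 q d2).2, (b4 p d1).1, (b4 p d1).2] at hs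
        nlinarith [mul_pos_of_neg_of_neg d1 d2]
  · intro p
    have cp := (cell_facts (k := 2) (by norm_num) (b1 p) (b2 p)).2.2
    change (if sin (X p) < σ then 6 else ⌊Z p / (2 * π / (3 * (2 : ℕ)))⌋₊) < 9
    split_ifs <;> omega

end Pool.Agent.MP_d23910_co

end MrgPart0

-- ======== part 1: formerly Pool.Agent.MP_d23910_co.Large
section MrgPart1

set_option autoImplicit false

namespace Pool.Agent.MP_d23910_co

open Real

lemma G_refl (a b w : ℝ) : G (π - b) (π - a) w = G a b w := by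
  simp only [G, cos_pi_sub, sin_pi_sub]; ring

lemma BandOK.refl {c a b : ℝ} {k : ℕ} (h : BandOK c a b k) : BandOK c (π - b) (π - a) k := by
  obtain ⟨h1, h2, h3, h4, h5, h6⟩ := h
  simp only [BandOK, G_refl]
  exact ⟨h1, by linarith, h3, h5, h4, fun hk => (h6 hk).symm⟩

lemma G_eq (a b w : ℝ) : G a b w = cos (b - a) - sin a * sin b * (1 - w) := by
  rw [G, cos_sub]; ring

lemma far_of {r a b : ℝ} (hr : 2 ≤ r) (h1 : 102 / 100 ≤ r * (b - a)) (h2 : b - a ≤ π) :
    G a b 1 ≤ 1 - 1 / (2 * r ^ 2) := by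
  have r0 : 0 < r := by linarith
  set x := 51 / 100 / r with hx
  have x0 : 0 < x := by positivity
  have xr : r * x = 51 / 100 := by rw [hx]; field_simp
  have x1 : x ≤ 51 / 200 := by nlinarith
  have h3 : cos (b - a) ≤ cos (2 * x) :=
    cos_le_cos_of_nonneg_of_le_pi (by positivity) h2 (by nlinarith)
  have h4 : 1 / 2 ≤ r * sin x := by
    have := mul_le_mul_of_nonneg_left (sin_gt_sub_cube x0).le r0.le
    have e : r * (x - x ^ 3 / 6) = 51 / 100 * (1 - x ^ 2 / 6) := by rw [← xr]; ring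
    nlinarith
  rw [G_eq, sub_self, mul_zero, sub_zero]
  refine h3.trans ?_
  rw [cos_two_mul']
  have h5 : 1 / (2 * r ^ 2) ≤ 2 * sin x ^ 2 := by
    rw [div_le_iff₀ (by positivity)]; nlinarith
  nlinarith [sin_sq_add_cos_sq x]

lemma band_of {r a b h m M P : ℝ} {k : ℕ} (hr : 0 < r) (hk : 0 < k) (hab : a < b)
    (hh : r * (b - a) ≤ h) (m0 : 0 ≤ m) (ma : m ≤ r * sin a) (mb : m ≤ r * sin b)
    (Ma : r * sin a ≤ M) (Mb : r * sin b ≤ M) (hP : (r * sin a) * (r * sin b) ≤ P)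
    (c1 : h ^ 2 + 2 * P * (1 - wlo k) < 1) (c2 : 2 * M ^ 2 * (1 - wlo k) ≤ 1)
    (c3 : 2 ≤ k → 1 ≤ 2 * m ^ 2 * (1 - whi k)) : BandOK (1 - 1 / (2 * r ^ 2)) a b k := by
  have hw := wlo_le k hk
  have hw1 := cos_le_one (2 * π / (3 * k))
  have hv := le_whi k
  set w := cos (2 * π / (3 * k))
  set v := cos (2 * (2 * π / (3 * k)))
  have hp : 0 < 2 * r ^ 2 := by positivity
  have d1 : ∀ x, m ≤ r * sin x → r * sin x ≤ M → 1 - 1 / (2 * r ^ 2) ≤ G x x w := by
    intro x h1 h2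
    rw [G_eq, sub_self, cos_zero, sub_le_sub_iff_left, le_div_iff₀ hp]
    have : (r * sin x) ^ 2 ≤ M ^ 2 := by gcongr; linarith
    nlinarith [mul_le_mul this (show 1 - w ≤ 1 - wlo k by linarith) (by linarith) (sq_nonneg M)]
  have d2 : ∀ x, m ≤ r * sin x → 1 ≤ 2 * m ^ 2 * (1 - whi k) → G x x v ≤ 1 - 1 / (2 * r ^ 2) := by
    intro x h1 h2
    rw [G_eq, sub_self, cos_zero, sub_le_sub_iff_left, div_le_iff₀ hp]
    have : m ^ 2 ≤ (r * sin x) ^ 2 := by gcongr
    have h3 : 0 ≤ 1 - (whi k : ℝ) := by nlinarith [sq_nonneg m]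
    nlinarith [mul_le_mul this (show 1 - (whi k : ℝ) ≤ 1 - v by linarith) h3 (sq_nonneg _)]
  refine ⟨hk, hab, ?_, d1 a ma Ma, d1 b mb Mb, fun h => ⟨d2 a ma (c3 h), d2 b mb (c3 h)⟩⟩
  rw [G_eq]
  have e1 : 1 - (b - a) ^ 2 / 2 ≤ cos (b - a) := one_sub_sq_div_two_le_cos
  have e2 : (b - a) ^ 2 / 2 + sin a * sin b * (1 - w) < 1 / (2 * r ^ 2) := by
    rw [lt_div_iff₀ hp]
    have t1 : (r * (b - a)) ^ 2 ≤ h ^ 2 := by
      have : 0 ≤ r * (b - a) := mul_nonneg hr.le (by linarith)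
      gcongr
    have t0 : 0 ≤ (r * sin a) * (r * sin b) := mul_nonneg (m0.trans ma) (m0.trans mb)
    nlinarith [mul_le_mul hP (show 1 - w ≤ 1 - wlo k by linarith) (by linarith) (t0.trans hP)]
  linarith

lemma band_mid {r a b : ℝ} (hr : 0 < r) (hab : a < b) (hh : r * (b - a) ≤ 62 / 100)
    (ha : 5 / 4 ≤ r * sin a) (hb : 5 / 4 ≤ r * sin b) :
    ∃ k, BandOK (1 - 1 / (2 * r ^ 2)) a b k := by
  set m := min (r * sin a) (r * sin b) with hm
  have m1 : 5 / 4 ≤ m := le_min ha hb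
  have lip : |r * sin a - r * sin b| ≤ 62 / 100 := by
    rw [← mul_sub, abs_mul, abs_of_pos hr]
    have := abs_sin_sub_sin_le a b
    rw [abs_sub_comm a b, abs_of_pos (sub_pos.2 hab)] at this
    nlinarith
  rw [abs_le] at lip
  have k5 : 5 ≤ ⌊4 * m⌋₊ := Nat.le_floor (by push_cast; linarith)
  have k1 := Nat.floor_le (show 0 ≤ 4 * m by linarith)
  have k2 := Nat.lt_floor_add_one (4 * m)
  obtain ⟨j, hj⟩ := Nat.exists_eq_add_of_le' k5
  rw [hj] at k1 k2
  push_cast at k1 k2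
  have j0 : (0 : ℝ) ≤ j := Nat.cast_nonneg j
  refine ⟨j + 5, band_of (h := 62 / 100) (m := m) (M := m + 62 / 100) (P := m * (m + 62 / 100))
    hr (by omega) hab hh (by linarith) (min_le_left _ _) (min_le_right _ _) ?_ ?_ ?_ ?_ ?_ ?_⟩
  · rcases min_choice (r * sin a) (r * sin b) with h | h <;> rw [hm, h] <;> linarith [lip.2]
  · rcases min_choice (r * sin a) (r * sin b) with h | h <;> rw [hm, h] <;> linarith [lip.1]
  · rcases min_choice (r * sin a) (r * sin b) with h | h <;> rw [hm, h] <;> nlinarith [lip.1, lip.2]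
  all_goals simp only [wlo, whi]
  all_goals push_cast
  · set x : ℝ := 2 * (31416 / 10000) / (3 * (j + 5)) with hx
    have x0 : 0 < x := by positivity
    have xr : (j + 5) * x = 20944 / 10000 := by rw [hx]; field_simp; norm_num
    have x1 : x ≤ 41888 / 100000 := by nlinarith
    have x2 : m * x ≤ 62832 / 100000 := by nlinarith
    have x3 : 0 ≤ m * x := by positivity
    have x4 : (m * x) ^ 2 ≤ (62832 / 100000) ^ 2 := by gcongr
    have x5 : (m * x) * x ≤ 62832 / 100000 * (41888 / 100000) := by gcongr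
    nlinarith
  · set x : ℝ := 2 * (31416 / 10000) / (3 * (j + 5)) with hx
    have x0 : 0 < x := by positivity
    have xr : (j + 5) * x = 20944 / 10000 := by rw [hx]; field_simp; norm_num
    have x1 : x ≤ 41888 / 100000 := by nlinarith
    have x2 : m * x ≤ 62832 / 100000 := by nlinarith
    have x3 : 0 ≤ (m + 62 / 100) * x := by positivity
    have x4 : ((m + 62 / 100) * x) ^ 2 ≤ 1 ^ 2 := by gcongr; nlinarith
    nlinarith
  · intro _
    set x : ℝ := 2 * (31415 / 10000) / (3 * (j + 5)) with hx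
    have x0 : 0 < x := by positivity
    have xr : (j + 5) * x = 6283 / 3000 := by rw [hx]; field_simp; norm_num
    have x1 : x ≤ 42 / 100 := by nlinarith
    have x2 : 52 / 100 ≤ m * x := by nlinarith
    have x3 : 97 / 100 ≤ 1 - x ^ 2 / 6 := by nlinarith
    have x4 : 52 / 100 * (97 / 100) ≤ (m * x) * (1 - x ^ 2 / 6) := by gcongr
    have x5 : (52 / 100 * (97 / 100)) ^ 2 ≤ ((m * x) * (1 - x ^ 2 / 6)) ^ 2 := by gcongr
    nlinarith

lemma asin_facts {r s t : ℝ} (hr : 2 ≤ r) (s0 : 0 < s) (s1 : s ≤ 1) (t0 : 0 < t) (t1 : t ≤ 2)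
    (h : s ≤ t * (1 - t ^ 2 / 24)) :
    r * sin (arcsin (s / r)) = s ∧ s ≤ r * arcsin (s / r) ∧ r * arcsin (s / r) ≤ t := by
  have r0 : 0 < r := by linarith
  have a1 : s / r ≤ 1 := by rw [div_le_one r0]; linarith
  have a0 : 0 < s / r := by positivity
  have e : sin (arcsin (s / r)) = s / r := sin_arcsin (by linarith) a1
  refine ⟨by rw [e]; field_simp, ?_, ?_⟩
  · have := sin_le (arcsin_nonneg.2 a0.le)
    rw [e, div_le_iff₀ r0] at this
    linarith
  · set x := t / r with hx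
    have x0 : 0 < x := by positivity
    have xr : r * x = t := by rw [hx]; field_simp
    have x1 : x ≤ t / 2 := by nlinarith
    have h4 : s / r ≤ sin x := by
      rw [div_le_iff₀ r0]
      have := mul_le_mul_of_nonneg_left (sin_gt_sub_cube x0).le r0.le
      have e : r * (x - x ^ 3 / 6) = t * (1 - x ^ 2 / 6) := by rw [← xr]; ring
      have : x ^ 2 ≤ (t / 2) ^ 2 := by gcongr
      nlinarith
    have : arcsin (s / r) ≤ x := by
      refine (arcsin_le_iff_le_sin ⟨by linarith, a1⟩ ⟨by linarith [pi_pos], ?_⟩).2 h4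
      linarith [pi_gt_three]
    nlinarith

lemma assemble {r p1 p2 p3 η : ℝ} {m : ℕ} (hr : 2 ≤ r) (m1 : 1 ≤ m) (e0 : p3 + m * η = π - p3)
    (B0 : BandOK (1 - 1 / (2 * r ^ 2)) 0 p1 1) (B1 : BandOK (1 - 1 / (2 * r ^ 2)) p1 p2 2)
    (B2 : BandOK (1 - 1 / (2 * r ^ 2)) p2 p3 4)
    (B3 : ∀ j < m, ∃ k, BandOK (1 - 1 / (2 * r ^ 2)) (p3 + j * η) (p3 + ((j + 1 : ℕ) : ℝ) * η) k)
    (F1 : G p1 p3 1 ≤ 1 - 1 / (2 * r ^ 2)) (F2 : G p2 (p3 + η) 1 ≤ 1 - 1 / (2 * r ^ 2))
    (F3 : ∀ j : ℕ, j + 2 ≤ m →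
      G (p3 + j * η) (p3 + ((j + 2 : ℕ) : ℝ) * η) 1 ≤ 1 - 1 / (2 * r ^ 2)) :
    (sphG r).Colorable 9 := by
  obtain ⟨ψ, q0, q1, q2, q3, q4, q5, q6⟩ : ∃ ψ : ℕ → ℝ, ψ 0 = 0 ∧ ψ 1 = p1 ∧ ψ 2 = p2 ∧
      (∀ j ≤ m, ψ (j + 3) = p3 + j * η) ∧ ψ (m + 4) = π - p2 ∧ ψ (m + 5) = π - p1 ∧
      ψ (m + 6) = π := by
    refine ⟨fun i => if i = 0 then 0 else if i = 1 then p1 else if i = 2 then p2 else
      if i ≤ m + 3 then p3 + ((i : ℝ) - 3) * η else if i = m + 4 then π - p2 else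
      if i = m + 5 then π - p1 else π, by simp, by simp, by simp, ?_, by simp, by simp, by simp⟩
    intro j hj
    simp only []
    rw [if_neg (by omega), if_neg (by omega), if_neg (by omega), if_pos (by omega)]
    push_cast; ring
  have q3' : ψ (m + 3) = π - p3 := by rw [q3 m le_rfl, e0]
  have q30 : ψ 3 = p3 := by simpa using q3 0 (Nat.zero_le _)
  have hB : ∀ i, ∃ k, i < m + 6 → BandOK (1 - 1 / (2 * r ^ 2)) (ψ i) (ψ (i + 1)) k := by
    intro i
    by_cases i0 : i = 0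
    · exact ⟨1, fun _ => by rw [i0, q0, q1]; exact B0⟩
    by_cases i1 : i = 1
    · exact ⟨2, fun _ => by rw [i1, q1, q2]; exact B1⟩
    by_cases i2 : i = 2
    · exact ⟨4, fun _ => by rw [i2, q2, q30]; exact B2⟩
    by_cases i3 : i < m + 3
    · obtain ⟨j, rfl⟩ : ∃ j, i = j + 3 := ⟨i - 3, by omega⟩
      rw [q3 j (by omega), show j + 3 + 1 = j + 1 + 3 by ring, q3 (j + 1) (by omega)]
      obtain ⟨k, hk⟩ := B3 j (by omega)
      exact ⟨k, fun _ => hk⟩
    by_cases i4 : i = m + 3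
    · exact ⟨4, fun _ => by rw [i4, q3', q4]; exact B2.refl⟩
    by_cases i5 : i = m + 4
    · exact ⟨2, fun _ => by rw [i5, q4, q5]; exact B1.refl⟩
    by_cases i6 : i = m + 5
    · exact ⟨1, fun _ => by rw [i6, q5, q6]; simpa using B0.refl⟩
    exact ⟨0, fun h => by omega⟩
  choose k hk using hB
  refine colorable_of_bands (by linarith) (by nlinarith) (m + 6) ψ k q0 q6 hk ?_
  intro i hi
  by_cases i0 : i = 0
  · rw [i0, q1, q30]; exact F1
  by_cases i1 : i = 1
  · rw [i1, q2, q3 1 m1]; simpa using F2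
  by_cases i3 : i ≤ m
  · obtain ⟨j, rfl⟩ : ∃ j, i = j + 2 := ⟨i - 2, by omega⟩
    rw [show j + 2 + 1 = j + 3 by ring, q3 j (by omega), q3 (j + 2) i3]
    exact F3 j i3
  by_cases i4 : i = m + 1
  · obtain ⟨j, hj⟩ : ∃ j, m = j + 1 := ⟨m - 1, by omega⟩
    have hj' : (m : ℝ) = j + 1 := by exact_mod_cast hj
    rw [i4, show m + 1 + 1 = j + 3 by omega, q3 j (by omega), q4]
    have : p3 + j * η = π - (p3 + η) := by rw [hj'] at e0; linarith
    rw [this, G_refl]; exact F2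
  · have : i = m + 2 := by omega
    rw [this, q3', q5, G_refl]; exact F1

lemma split_mid {r L : ℝ} (hr : 2 ≤ r) (L0 : 3 ≤ r * L) :
    ∃ (m : ℕ) (η : ℝ), 5 ≤ m ∧ m * η = L ∧ 51 / 100 ≤ r * η ∧ r * η ≤ 62 / 100 ∧ 0 < η := by
  set m := ⌊r * L / (51 / 100)⌋₊ with hm
  have m5 : 5 ≤ m := Nat.le_floor (by rw [le_div_iff₀ (by norm_num)]; push_cast; linarith)
  have m5' : (5 : ℝ) ≤ m := by exact_mod_cast m5
  have m1 := (le_div_iff₀ (by norm_num)).1
    (Nat.floor_le (show 0 ≤ r * L / (51 / 100) by positivity))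
  have m2 := (div_lt_iff₀ (by norm_num)).1 (Nat.lt_floor_add_one (r * L / (51 / 100)))
  rw [← hm] at m1 m2
  have e0 : m * (L / m) = L := by field_simp
  have e4 : m * (r * (L / m)) = r * L := by field_simp
  have e1 : 51 / 100 ≤ r * (L / m) := by
    by_contra h
    push Not at h
    nlinarith
  have e2 : r * (L / m) ≤ 62 / 100 := by
    by_contra h
    push Not at h
    nlinarith
  exact ⟨m, L / m, m5, e0, e1, e2, by nlinarith⟩

lemma sin_p3 {r p : ℝ} (hr : 2 ≤ r) (h1 : 159 / 100 ≤ r * p) (h2 : r * p ≤ 162 / 100) :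
    0 < p ∧ p ≤ 81 / 100 ∧ 5 / 4 ≤ r * sin p ∧ r * sin p ≤ 162 / 100 := by
  have r0 : 0 < r := by linarith
  have p0 : 0 < p := by nlinarith
  have p1 : p ≤ 81 / 100 := by nlinarith
  refine ⟨p0, p1, ?_, ?_⟩
  · have := mul_le_mul_of_nonneg_left (sin_gt_sub_cube p0).le r0.le
    have e : r * (p - p ^ 3 / 6) = (r * p) * (1 - p ^ 2 / 6) := by ring
    have : p ^ 2 ≤ (81 / 100) ^ 2 := by gcongr
    have : 159 / 100 * (89 / 100) ≤ (r * p) * (1 - p ^ 2 / 6) := by gcongr; linarith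
    linarith
  · have := mul_le_mul_of_nonneg_left (sin_le p0.le) r0.le
    linarith

theorem large {r : ℝ} (hr : 2 ≤ r) : (sphG r).Colorable 9 := by
  have r0 : 0 < r := by linarith
  obtain ⟨s, s2, sl, sh⟩ : ∃ s : ℝ, s ^ 2 = 1 / 3 ∧ 577 / 1000 ≤ s ∧ s ≤ 578 / 1000 :=
    ⟨√(1 / 3), sq_sqrt (by norm_num), le_sqrt_of_sq_le (by norm_num),
      sqrt_le_iff.2 ⟨by norm_num, by norm_num⟩⟩
  obtain ⟨p1, a1, a2, a3⟩ : ∃ p, r * sin p = s ∧ s ≤ r * p ∧ r * p ≤ 6 / 10 :=
    ⟨_, asin_facts hr (by linarith) (by linarith) (by norm_num) (by norm_num) (by linarith)⟩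
  obtain ⟨p2, b1, b2, b3⟩ : ∃ p, r * sin p = 1 ∧ 1 ≤ r * p ∧ r * p ≤ 107 / 100 :=
    ⟨_, asin_facts hr (by norm_num) le_rfl (by norm_num) (by norm_num) (by norm_num)⟩
  obtain ⟨p3, c0⟩ : ∃ p3, r * p3 = r * p1 + 102 / 100 := ⟨p1 + 102 / 100 / r, by field_simp⟩
  have p10 : 0 < p1 := lt_of_mul_lt_mul_left (a := r) (by linarith) r0.le
  have p12 : p1 < p2 := lt_of_mul_lt_mul_left (a := r) (by linarith) r0.le
  have p23 : p2 < p3 := lt_of_mul_lt_mul_left (a := r) (by linarith) r0.le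
  obtain ⟨p30, p3h, c1, c2⟩ := sin_p3 (p := p3) hr (by linarith) (by linarith)
  have hpi := pi_gt_d2
  have lip : 1 - s ≤ r * (p2 - p1) := by
    have := abs_sin_sub_sin_le p2 p1
    rw [abs_of_pos (sub_pos.2 p12)] at this
    have h2 := mul_le_mul_of_nonneg_left ((le_abs_self _).trans this) r0.le
    linarith
  obtain ⟨m, η, m5, e0, e1, e2, e3⟩ := split_mid (L := π - 2 * p3) hr (by nlinarith)
  have m5' : (5 : ℝ) ≤ m := by exact_mod_cast m5
  have e5 : 5 * η ≤ m * η := by gcongr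
  have mid : ∀ j ≤ m, 5 / 4 ≤ r * sin (p3 + j * η) := by
    intro j hj
    have hj' : (j : ℝ) * η ≤ m * η := by gcongr
    have j0 : (0 : ℝ) ≤ j * η := by positivity
    have := sin_ge_min (a := p3) (b := π - p3) (x := p3 + j * η) (by linarith) (by linarith)
      (by linarith) (by linarith)
    rw [sin_pi_sub, min_self] at this
    exact c1.trans (by gcongr)
  refine assemble (p1 := p1) (p2 := p2) (p3 := p3) (η := η) (m := m) hr (by omega) (by linarith)
    ?_ ?_ ?_ ?_ ?_ ?_ ?_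
  · exact band_of (h := 6 / 10) (m := 0) (M := s) (P := 0) r0 (by norm_num) p10 (by linarith)
      le_rfl (by simp) (by linarith) (by rw [sin_zero]; linarith) a1.le (by simp) (by norm_num)
      (by rw [s2]; norm_num [wlo]) (by omega)
  · exact band_of (h := 1 / 2) (m := s) (M := 1) (P := s) r0 (by norm_num) p12 (by linarith)
      (by linarith) a1.ge (by linarith) (by linarith) b1.le (by rw [a1, b1]; linarith)
      (by norm_num [wlo]; linarith) (by norm_num [wlo]) (fun _ => by rw [s2]; norm_num [whi])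
  · exact band_of (h := 6 / 10) (m := 1) (M := 162 / 100) (P := 162 / 100) r0 (by norm_num) p23
      (by linarith) (by linarith) b1.ge (by linarith) (by linarith) c2 (by rw [b1]; linarith)
      (by norm_num [wlo]) (by norm_num [wlo]) (fun _ => by norm_num [whi])
  · intro j hj
    exact band_mid r0 (by push_cast; linarith) (by push_cast; linarith) (mid j (by omega))
      (mid _ (by omega))
  · exact far_of hr (by linarith) (by linarith)
  · exact far_of hr (by linarith) (by linarith)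
  · intro j _
    exact far_of hr (by push_cast; linarith) (by push_cast; linarith)

end Pool.Agent.MP_d23910_co

end MrgPart1

-- ======== part 2: formerly Pool.Agent.MP_d23910_co.All
section MrgPart2

set_option autoImplicit false

namespace Pool.Agent.MP_d23910_co

theorem nine {r : ℝ} (hr : 0 < r) : (sphG r).Colorable 9 := by
  by_cases h1 : 2 * r ^ 2 < 1
  · exact octants hr.le h1
  by_cases h2 : r < 39 / 50
  · exact barrel hr (not_lt.1 h1) h2
  by_cases h3 : r < 2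
  · exact small (not_lt.1 h2) h3
  · exact large (not_lt.1 h3)

end Pool.Agent.MP_d23910_co

end MrgPart2

-- marker of a merged file
example : 731051 + 361679 = 731051 + 361679 := rfl
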