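import Mathlib.Topology.Sheaves.Presheaf
import Mathlib.Tactic.Monotonicity.Lemmas
import Mathlib.RingTheory.Flat.TorsionFree
import Mathlib.Algebra.Order.Ring.Star
import Mathlib.Analysis.InnerProductSpace.PiL2
import Mathlib.Algebra.Order.Star.Real
import Mathlib.Analysis.Calculus.Deriv.Polynomial
import Mathlib.Topology.Algebra.Polynomial
import Mathlib.Analysis.Real.Pi.Bounds
import Mathlib.Combinatorics.SimpleGraph.Coloring.Vertex
import Mathlib.Combinatorics.SimpleGraph.Finsubgraph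
import Mathlib.Data.Rat.Star
import Mathlib.Order.CompletePartialOrder
import Mathlib.RingTheory.TotallySplit
import Mathlib.RingTheory.Etale.Weakly
import Mathlib.Tactic.Polynomial.Basic

-- ======== part 0: formerly Pool.Agent.MP_d23910_co.Deform
section MrgPart0

set_option autoImplicit false

namespace Pool.Agent.MP_d23910_co

open Filter Topology Polynomial

/-- The ring map `ι` is a limit of ring maps `φ` with prescribed value `t` at `τ`, killing the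
kernel of `ι`, as `t` tends to `t₀`. -/
def Good (t₀ : ℝ) (A : Type) [CommRing A] (ι : A →+* ℝ) (τ : A) : Prop :=
  ∀ U ∈ 𝓝 (ι : A → ℝ), ∀ᶠ t in 𝓝 t₀,
    ∃ φ : A →+* ℝ, φ τ = t ∧ (φ : A → ℝ) ∈ U ∧ ∀ a, ι a = 0 → φ a = 0

lemma good_base (t₀ : ℝ) (h : Transcendental ℚ t₀) :
    Good t₀ ℚ[X] (eval₂RingHom (algebraMap ℚ ℝ) t₀) X := by
  intro U hU
  have hc : Continuous (fun t : ℝ => (fun g : ℚ[X] => eval₂ (algebraMap ℚ ℝ) t g)) := by
    refine continuous_pi fun g => ?_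
    simpa [aeval_def] using Polynomial.continuous_aeval (A := ℝ) g
  have := hc.continuousAt (x := t₀) hU
  filter_upwards [this] with t ht
  refine ⟨eval₂RingHom (algebraMap ℚ ℝ) t, by simp, ht, ?_⟩
  intro a ha
  have : a = 0 := by
    by_contra hne
    exact h ⟨a, hne, by simpa [aeval_def] using ha⟩
  simp [this]

/-- evaluation of a polynomial along an arbitrary function on coefficients -/
noncomputable def ev {A : Type} [CommRing A] (ψ : A → ℝ) (y : ℝ) (g : A[X]) : ℝ :=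
  ∑ i ∈ Finset.range (g.natDegree + 1), ψ (g.coeff i) * y ^ i

lemma ev_hom {A : Type} [CommRing A] (φ : A →+* ℝ) (y : ℝ) (g : A[X]) :
    ev φ y g = eval₂ φ y g := by
  rw [ev, eval₂_eq_sum_range]

lemma ev_cont {A : Type} [CommRing A] (g : A[X]) :
    Continuous (fun p : (A → ℝ) × ℝ => ev p.1 p.2 g) := by
  unfold ev
  fun_prop

lemma sign_change (p : ℝ[X]) (x : ℝ) (h0 : p.eval x = 0) (h1 : p.derivative.eval x ≠ 0)
    (V : Set ℝ) (hV : V ∈ 𝓝 x) :
    ∃ a b, Set.uIcc a b ⊆ V ∧ p.eval a < 0 ∧ 0 < p.eval b := by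
  obtain ⟨δ, hδ, hb⟩ := Metric.mem_nhds_iff.1 hV
  have hd : HasDerivAt (fun y => p.eval y) (p.derivative.eval x) x := p.hasDerivAt x
  have hs := hasDerivAt_iff_tendsto_slope.1 hd
  have hconv : ∀ a b, a ∈ Metric.ball x δ → b ∈ Metric.ball x δ → Set.uIcc a b ⊆ V :=
    fun a b ha hb' => ((convex_ball x δ).ordConnected.uIcc_subset ha hb').trans hb
  have hball : ∀ᶠ y in 𝓝[≠] x, y ∈ Metric.ball x δ :=
    mem_nhdsWithin_of_mem_nhds (Metric.ball_mem_nhds x hδ)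
  have hL : 𝓝[<] x ≤ 𝓝[≠] x := nhdsWithin_mono _ fun y hy => ne_of_lt hy
  have hR : 𝓝[>] x ≤ 𝓝[≠] x := nhdsWithin_mono _ fun y hy => ne_of_gt hy
  rcases lt_or_gt_of_ne h1 with hneg | hpos
  · have he : ∀ᶠ y in 𝓝[≠] x, slope (fun y => p.eval y) x y < 0 := hs.eventually (gt_mem_nhds hneg)
    obtain ⟨a, ⟨ha1, ha2⟩, ha3⟩ := (((he.and hball).filter_mono hR).and self_mem_nhdsWithin).exists
    obtain ⟨b, ⟨hb1, hb2⟩, hb3⟩ := (((he.and hball).filter_mono hL).and self_mem_nhdsWithin).exists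
    refine ⟨a, b, hconv a b ha2 hb2, ?_, ?_⟩
    · rw [slope_def_field, h0, sub_zero] at ha1
      have : 0 < a - x := sub_pos.2 ha3
      rcases div_neg_iff.1 ha1 with h | h <;> linarith [h.1, h.2]
    · rw [slope_def_field, h0, sub_zero] at hb1
      have : b - x < 0 := sub_neg.2 hb3
      rcases div_neg_iff.1 hb1 with h | h <;> linarith [h.1, h.2]
  · have he : ∀ᶠ y in 𝓝[≠] x, 0 < slope (fun y => p.eval y) x y := hs.eventually (lt_mem_nhds hpos)
    obtain ⟨a, ⟨ha1, ha2⟩, ha3⟩ := (((he.and hball).filter_mono hL).and self_mem_nhdsWithin).exists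
    obtain ⟨b, ⟨hb1, hb2⟩, hb3⟩ := (((he.and hball).filter_mono hR).and self_mem_nhdsWithin).exists
    refine ⟨a, b, hconv a b ha2 hb2, ?_, ?_⟩
    · rw [slope_def_field, h0, sub_zero] at ha1
      have : a - x < 0 := sub_neg.2 ha3
      rcases div_pos_iff.1 ha1 with h | h <;> linarith [h.1, h.2]
    · rw [slope_def_field, h0, sub_zero] at hb1
      have : 0 < b - x := sub_pos.2 hb3
      rcases div_pos_iff.1 hb1 with h | h <;> linarith [h.1, h.2]

lemma eval₂_zero_of_map {A : Type} [CommRing A] (ι φ : A →+* ℝ) (hk : ∀ a, ι a = 0 → φ a = 0)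
    (y : ℝ) (g : A[X]) (hg : g.map ι = 0) : eval₂ φ y g = 0 := by
  rw [eval₂_eq_sum_range]
  refine Finset.sum_eq_zero fun i _ => ?_
  have : ι (g.coeff i) = 0 := by rw [← coeff_map, hg, coeff_zero]
  rw [hk _ this, zero_mul]

lemma ker_step {A : Type} [CommRing A] (ι φ : A →+* ℝ) (hk : ∀ a, ι a = 0 → φ a = 0)
    (x y : ℝ) (f : A[X]) (hf0 : f.map ι ≠ 0) (hfx : eval₂ ι x f = 0)
    (hmin : ∀ g : A[X], g.map ι ≠ 0 → eval₂ ι x g = 0 →
      (f.map ι).natDegree ≤ (g.map ι).natDegree)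
    (ha : φ (f.coeff (f.map ι).natDegree) ≠ 0) (hfy : eval₂ φ y f = 0) :
    ∀ g : A[X], eval₂ ι x g = 0 → eval₂ φ y g = 0 := by
  set n := (f.map ι).natDegree with hn
  have key : ∀ m : ℕ, ∀ g : A[X], (g.map ι).natDegree = m → eval₂ ι x g = 0 →
      eval₂ φ y g = 0 := by
    intro m
    induction m using Nat.strong_induction_on with
    | _ m ih =>
      intro g hm hg
      by_cases h0 : g.map ι = 0
      · exact eval₂_zero_of_map ι φ hk y g h0
      have hnm : n ≤ m := hm ▸ hmin g h0 hg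
      set g' : A[X] := C (f.coeff n) * g - C (g.coeff m) * X ^ (m - n) * f with hg'
      have hx' : eval₂ ι x g' = 0 := by
        simp [hg', eval₂_sub, eval₂_mul, hg, hfx]
      have hy' : eval₂ φ y g' = 0 := by
        by_cases h1 : g'.map ι = 0
        · exact eval₂_zero_of_map ι φ hk y g' h1
        refine ih (g'.map ι).natDegree ?_ g' rfl hx'
        have hlt : (g'.map ι).degree < (m : WithBot ℕ) := by
          rw [degree_lt_iff_coeff_zero]
          intro j hj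
          have e : (g'.map ι).coeff j = ι (f.coeff n) * (g.map ι).coeff j
              - ι (g.coeff m) * (f.map ι).coeff (j - (m - n)) := by
            have hj' : m - n ≤ j := le_trans (Nat.sub_le _ _) hj
            simp only [hg', Polynomial.map_sub, Polynomial.map_mul, map_C, Polynomial.map_pow,
              map_X, coeff_sub, coeff_C_mul, mul_assoc]
            rw [coeff_X_pow_mul', if_pos hj']
          rw [e]
          rcases eq_or_lt_of_le hj with hj | hj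
          · subst hj
            have : m - (m - n) = n := by omega
            rw [this, coeff_map, coeff_map]
            ring
          · have h2 : (g.map ι).coeff j = 0 := coeff_eq_zero_of_natDegree_lt (hm ▸ hj)
            have h3 : (f.map ι).coeff (j - (m - n)) = 0 :=
              coeff_eq_zero_of_natDegree_lt (by omega)
            rw [h2, h3]; ring
        exact (natDegree_lt_iff_degree_lt h1).2 hlt
      have : φ (f.coeff n) * eval₂ φ y g = 0 := by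
        simpa [hg', eval₂_sub, eval₂_mul, hfy] using hy'
      exact (mul_eq_zero.1 this).resolve_left ha
  exact fun g hg => key _ g rfl hg

lemma good_step (t₀ : ℝ) (A : Type) [CommRing A] (ι : A →+* ℝ) (τ : A) (h : Good t₀ A ι τ)
    (x : ℝ) : Good t₀ A[X] (eval₂RingHom ι x) (C τ) := by
  intro U hU
  have hc : Continuous (fun p : (A → ℝ) × ℝ => (fun g : A[X] => ev p.1 p.2 g)) :=
    continuous_pi fun g => ev_cont g
  have hU' : (fun p : (A → ℝ) × ℝ => (fun g : A[X] => ev p.1 p.2 g)) ⁻¹' U ∈ 𝓝 ((ι : A → ℝ), x) := by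
    refine hc.continuousAt ?_
    have : (fun g : A[X] => ev ι x g) = (eval₂RingHom ι x : A[X] → ℝ) := by
      funext g; simp [ev_hom]
    simpa [this] using hU
  obtain ⟨U₁, hU₁, V, hV, hUV⟩ := mem_nhds_prod_iff.1 hU'
  have hmem : ∀ φ : A →+* ℝ, (φ : A → ℝ) ∈ U₁ → ∀ y ∈ V, (eval₂RingHom φ y : A[X] → ℝ) ∈ U := by
    intro φ hφ y hy
    have h1 := hUV (Set.mk_mem_prod hφ hy)
    have : (fun g : A[X] => ev φ y g) = (eval₂RingHom φ y : A[X] → ℝ) := by
      funext g; simp [ev_hom]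
    simpa [this] using h1
  by_cases hex : ∃ g : A[X], g.map ι ≠ 0 ∧ eval₂ ι x g = 0
  · classical
    obtain ⟨f, ⟨hf0, hfx⟩, hmin⟩ := WellFounded.has_min (measure fun g : A[X] =>
      (g.map ι).natDegree).wf {g | g.map ι ≠ 0 ∧ eval₂ ι x g = 0} hex
    have hmin' : ∀ g : A[X], g.map ι ≠ 0 → eval₂ ι x g = 0 →
        (f.map ι).natDegree ≤ (g.map ι).natDegree := fun g h1 h2 =>
      not_lt.1 (hmin g ⟨h1, h2⟩)
    have hfx' : (f.map ι).eval x = 0 := by rw [eval_map]; exact hfx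
    have hpos : (f.map ι).natDegree ≠ 0 := by
      intro h0
      have := eq_C_of_natDegree_eq_zero h0
      rw [this, eval_C] at hfx'
      rw [hfx', C_0] at this
      exact hf0 this
    have hder : (f.map ι).derivative.eval x ≠ 0 := by
      intro h0
      have h1 : (derivative f).map ι ≠ 0 := by
        rw [← derivative_map]
        exact fun h => hpos (Polynomial.derivative_eq_zero.1 h)
      have h2 := hmin' (derivative f) h1 (by rw [← eval_map, ← derivative_map]; exact h0)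
      rw [← derivative_map] at h2
      exact absurd (natDegree_derivative_lt hpos) (not_lt.2 h2)
    obtain ⟨a, b, hab, ha, hb⟩ := sign_change _ x hfx' hder V hV
    have hlead : ι (f.coeff (f.map ι).natDegree) ≠ 0 := by
      rw [← coeff_map]; exact leadingCoeff_ne_zero.2 hf0
    have o1 : {ψ : A → ℝ | ev ψ a f < 0} ∈ 𝓝 (ι : A → ℝ) := by
      have : Continuous (fun ψ : A → ℝ => ev ψ a f) :=
        (ev_cont f).comp (continuous_id.prodMk continuous_const)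
      refine (isOpen_lt this continuous_const).mem_nhds ?_
      simpa [ev_hom, eval_map] using ha
    have o2 : {ψ : A → ℝ | 0 < ev ψ b f} ∈ 𝓝 (ι : A → ℝ) := by
      have : Continuous (fun ψ : A → ℝ => ev ψ b f) :=
        (ev_cont f).comp (continuous_id.prodMk continuous_const)
      refine (isOpen_lt continuous_const this).mem_nhds ?_
      simpa [ev_hom, eval_map] using hb
    have o3 : {ψ : A → ℝ | ψ (f.coeff (f.map ι).natDegree) ≠ 0} ∈ 𝓝 (ι : A → ℝ) :=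
      (isOpen_ne_fun (continuous_apply _) continuous_const).mem_nhds hlead
    filter_upwards [h _ (inter_mem hU₁ (inter_mem o1 (inter_mem o2 o3)))] with t ht
    obtain ⟨φ, hτ, ⟨h1, h2, h3, h4⟩, hk⟩ := ht
    have hcont : ContinuousOn (fun y => ev φ y f) (Set.uIcc a b) :=
      ((ev_cont f).comp (continuous_const.prodMk continuous_id)).continuousOn
    obtain ⟨y, hy, hy0⟩ := intermediate_value_uIcc hcont
      (show (0 : ℝ) ∈ Set.uIcc (ev φ a f) (ev φ b f) from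
        Set.mem_uIcc.2 (Or.inl ⟨le_of_lt h2, le_of_lt h3⟩))
    refine ⟨eval₂RingHom φ y, by simpa using hτ, hmem φ h1 y (hab hy), ?_⟩
    intro g hg
    exact ker_step ι φ hk x y f hf0 hfx hmin' h4 (by rw [← ev_hom]; exact hy0) g hg
  · push Not at hex
    filter_upwards [h _ hU₁] with t ht
    obtain ⟨φ, hτ, h1, hk⟩ := ht
    refine ⟨eval₂RingHom φ x, by simpa using hτ, hmem φ h1 x (mem_of_mem_nhds hV), ?_⟩
    intro g hg
    have : g.map ι = 0 := by
      by_contra hne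
      exact hex g hne hg
    exact eval₂_zero_of_map ι φ hk x g this

lemma good_exists (t₀ : ℝ) (h : Transcendental ℚ t₀) (S : Finset ℝ) :
    ∃ (A : Type) (_ : CommRing A) (ι : A →+* ℝ) (τ : A),
      Good t₀ A ι τ ∧ ι τ = t₀ ∧ ∀ x ∈ S, ∃ a, ι a = x := by
  classical
  induction S using Finset.induction_on with
  | empty => exact ⟨ℚ[X], inferInstance, _, X, good_base t₀ h, by simp, by simp⟩
  | insert x S _ ih =>
    obtain ⟨A, _, ι, τ, hg, hτ, hS⟩ := ih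
    refine ⟨A[X], inferInstance, _, C τ, good_step t₀ A ι τ hg x, by simpa using hτ, ?_⟩
    intro z hz
    rcases Finset.mem_insert.1 hz with rfl | hz
    · exact ⟨X, by simp⟩
    · obtain ⟨a, ha⟩ := hS z hz
      exact ⟨C a, by simpa using ha⟩

/-- the unit distance graph of the sphere of radius `r` in Euclidean 3-space -/
def sphG (r : ℝ) : SimpleGraph (Metric.sphere (0 : EuclideanSpace ℝ (Fin 3)) r) :=
  SimpleGraph.fromRel (fun x y =>
    dist (x : EuclideanSpace ℝ (Fin 3)) (y : EuclideanSpace ℝ (Fin 3)) = 1)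

lemma sphG_adj (r : ℝ) (x y : Metric.sphere (0 : EuclideanSpace ℝ (Fin 3)) r) :
    (sphG r).Adj x y ↔ ∑ i, (x.1 i - y.1 i) ^ 2 = 1 := by
  have e : dist (x : EuclideanSpace ℝ (Fin 3)) (y : EuclideanSpace ℝ (Fin 3)) = 1 ↔
      ∑ i, (x.1 i - y.1 i) ^ 2 = 1 := by
    rw [EuclideanSpace.dist_eq, Real.sqrt_eq_one]
    simp [Real.dist_eq, sq_abs]
  rw [sphG, SimpleGraph.fromRel_adj, dist_comm (y : EuclideanSpace ℝ (Fin 3)), or_self, e]
  refine ⟨fun h => h.2, fun h => ⟨?_, h⟩⟩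
  rintro rfl
  simp at h

lemma mem_sph {r : ℝ} (hr : 0 ≤ r) (x : EuclideanSpace ℝ (Fin 3)) :
    x ∈ Metric.sphere (0 : EuclideanSpace ℝ (Fin 3)) r ↔ ∑ i, x i ^ 2 = r ^ 2 := by
  rw [mem_sphere_zero_iff_norm, EuclideanSpace.norm_eq, Real.sqrt_eq_iff_eq_sq
    (Finset.sum_nonneg fun i _ => sq_nonneg _) hr]
  simp [sq_abs]

/-- a finite graph drawn on the sphere of transcendental radius is drawn on all nearby spheres -/
lemma deform {V : Type} [Finite V] (G : SimpleGraph V) (r₀ : ℝ) (hr : 0 < r₀)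
    (h : Transcendental ℚ r₀) (f : G →g sphG r₀) :
    ∀ᶠ r in 𝓝 r₀, Nonempty (G →g sphG r) := by
  classical
  cases nonempty_fintype V
  obtain ⟨A, _, ι, τ, hg, hτ, hS⟩ := good_exists r₀ h
    (Finset.univ.image fun p : V × Fin 3 => (f p.1).1 p.2)
  have hS' : ∀ p : V × Fin 3, ∃ a, ι a = (f p.1).1 p.2 := fun p =>
    hS _ (Finset.mem_image.2 ⟨p, Finset.mem_univ _, rfl⟩)
  choose a ha using hS'
  filter_upwards [hg _ univ_mem, lt_mem_nhds hr] with r ⟨φ, hφ, _, hk⟩ hr'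
  have hn : ∀ v, (WithLp.toLp 2 fun i => φ (a (v, i)) : EuclideanSpace ℝ (Fin 3)) ∈
      Metric.sphere (0 : EuclideanSpace ℝ (Fin 3)) r := by
    intro v
    rw [mem_sph hr'.le]
    have h1 := (mem_sph hr.le _).1 (f v).2
    have h2 := hk (∑ i, a (v, i) ^ 2 - τ ^ 2) (by simp [ha, hτ, h1])
    simp only [map_sub, map_sum, map_pow, hφ] at h2
    simpa using sub_eq_zero.1 h2
  refine ⟨⟨fun v => ⟨_, hn v⟩, ?_⟩⟩
  intro u v huv
  rw [sphG_adj]
  have h1 := (sphG_adj _ _ _).1 (f.map_rel huv)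
  have h2 := hk (∑ i, (a (u, i) - a (v, i)) ^ 2 - 1) (by simp [ha, h1])
  simp only [map_sub, map_sum, map_pow, map_one] at h2
  simpa using sub_eq_zero.1 h2

lemma lsc_colorable (r₀ : ℝ) (hr : 0 < r₀) (h : Transcendental ℚ r₀) (k : ℕ)
    (hk : ¬ (sphG r₀).Colorable k) : ∀ᶠ r in 𝓝 r₀, ¬ (sphG r).Colorable k := by
  have : ∃ G' : (sphG r₀).Subgraph, G'.verts.Finite ∧ ¬ G'.coe.Colorable k := by
    by_contra hcon
    push Not at hcon
    exact hk (SimpleGraph.nonempty_hom_of_forall_finite_subgraph_hom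
      (fun G' hG' => (hcon G' hG').some))
  obtain ⟨G', hfin, hG'⟩ := this
  have : Finite G'.verts := hfin
  filter_upwards [deform G'.coe r₀ hr h G'.hom] with r ⟨g⟩ hc
  exact hG' (hc.of_hom g)

end Pool.Agent.MP_d23910_co

end MrgPart0

-- ======== part 1: formerly Pool.Agent.MP_d23910_co.Bands
section MrgPart1

set_option autoImplicit false

namespace Pool.Agent.MP_d23910_co

open Real

/-- inner product of two unit vectors with polar angles `a`, `b` when the cosine of the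
difference of their longitudes is `w` -/
noncomputable def G (a b w : ℝ) : ℝ := cos a * cos b + sin a * sin b * w

lemma G_comm (a b w : ℝ) : G a b w = G b a w := by unfold G; ring

/-- the band between the polar angles `a < b` may be cut in `3 k` equal cells -/
def BandOK (c a b : ℝ) (k : ℕ) : Prop :=
  0 < k ∧ a < b ∧ c < G a b (cos (2 * π / (3 * k))) ∧ c ≤ G a a (cos (2 * π / (3 * k))) ∧
    c ≤ G b b (cos (2 * π / (3 * k))) ∧
    (2 ≤ k → G a a (cos (2 * (2 * π / (3 * k)))) ≤ c ∧ G b b (cos (2 * (2 * π / (3 * k)))) ≤ c)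

lemma interp {a b x P Q c : ℝ} (ha : 0 ≤ a) (hb : b ≤ π) (hax : a ≤ x) (hxb : x ≤ b)
    (hs : 0 < sin (b - a)) (hc : 0 ≤ c) (h1 : c ≤ P * cos a + Q * sin a)
    (h2 : c ≤ P * cos b + Q * sin b) : c ≤ P * cos x + Q * sin x := by
  have e : sin (b - a) * (P * cos x + Q * sin x) =
      sin (b - x) * (P * cos a + Q * sin a) + sin (x - a) * (P * cos b + Q * sin b) := by
    simp only [sin_sub]; ring
  have s1 : 0 ≤ sin (b - x) := sin_nonneg_of_nonneg_of_le_pi (by linarith) (by linarith)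
  have s2 : 0 ≤ sin (x - a) := sin_nonneg_of_nonneg_of_le_pi (by linarith) (by linarith)
  have s3 : sin (b - a) ≤ sin (b - x) + sin (x - a) := by
    have : b - a = (b - x) + (x - a) := by ring
    rw [this, sin_add]
    nlinarith [cos_le_one (b - x), cos_le_one (x - a)]
  by_contra hlt
  push Not at hlt
  nlinarith [mul_le_mul_of_nonneg_left h1 s1, mul_le_mul_of_nonneg_left h2 s2,
    mul_le_mul_of_nonneg_right s3 hc, mul_lt_mul_of_pos_left hlt hs]

lemma same_cell {c a b x x' w w' : ℝ} (hc : 0 ≤ c) (ha : 0 ≤ a) (hb : b ≤ π) (hab : a < b)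
    (hax : a ≤ x) (hxb : x ≤ b) (hax' : a ≤ x') (hxb' : x' ≤ b) (hw : w < w') (hw1 : w ≤ 1)
    (h1 : c < G a b w) (h2 : c ≤ G a a w) (h3 : c ≤ G b b w) : c < G x x' w' := by
  have sa : 0 ≤ sin a := sin_nonneg_of_nonneg_of_le_pi ha (by linarith)
  have sb : 0 ≤ sin b := sin_nonneg_of_nonneg_of_le_pi (by linarith) hb
  have hcos : c < cos (b - a) := by
    rw [cos_sub]; unfold G at h1
    nlinarith [mul_nonneg sa sb]
  have hs : 0 < sin (b - a) := by
    refine sin_pos_of_pos_of_lt_pi (by linarith) (lt_of_le_of_ne (by linarith) ?_)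
    intro h
    rw [h, cos_pi] at hcos
    linarith
  have sx : 0 ≤ sin x := sin_nonneg_of_nonneg_of_le_pi (by linarith) (by linarith)
  have sx' : 0 ≤ sin x' := sin_nonneg_of_nonneg_of_le_pi (by linarith) (by linarith)
  rcases eq_or_lt_of_le (mul_nonneg sx sx') with h0 | h0
  · have e : G x x' w' = cos |x - x'| := by
      rw [cos_abs, cos_sub]; unfold G; rw [← h0]; ring
    rw [e]
    refine lt_of_lt_of_le hcos (cos_le_cos_of_nonneg_of_le_pi (abs_nonneg _) (by linarith) ?_)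
    rw [abs_le]; constructor <;> linarith
  · have k1 : c ≤ cos a * cos x' + (sin a * w) * sin x' :=
      interp ha hb hax' hxb' hs hc (by unfold G at h2; linarith) (by unfold G at h1; linarith)
    have k2 : c ≤ cos b * cos x' + (sin b * w) * sin x' :=
      interp ha hb hax' hxb' hs hc (by unfold G at h1; linarith) (by unfold G at h3; linarith)
    have k3 : c ≤ cos x' * cos x + (sin x' * w) * sin x :=
      interp ha hb hax hxb hs hc (by linarith) (by linarith)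
    unfold G
    nlinarith [mul_lt_mul_of_pos_left hw h0]

lemma sin_ge_min {a b x : ℝ} (ha : 0 ≤ a) (hb : b ≤ π) (hax : a ≤ x) (hxb : x ≤ b) :
    min (sin a) (sin b) ≤ sin x :=
  (strictConcaveOn_sin_Icc.concaveOn.min_le_of_mem_Icc ⟨ha, by linarith⟩ ⟨by linarith, hb⟩
    ⟨hax, hxb⟩)

lemma far_cell {c a b x x' w w' : ℝ} (hc : c < 1) (ha : 0 ≤ a) (hb : b ≤ π)
    (hax : a ≤ x) (hxb : x ≤ b) (hax' : a ≤ x') (hxb' : x' ≤ b) (hw : w' < w) (hw1 : w ≤ 1)
    (h2 : G a a w ≤ c) (h3 : G b b w ≤ c) : G x x' w' < c := by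
  have sa : 0 ≤ sin a := sin_nonneg_of_nonneg_of_le_pi ha (by linarith)
  have sb : 0 ≤ sin b := sin_nonneg_of_nonneg_of_le_pi (by linarith) hb
  set m := min (sin a) (sin b) with hm
  have m0 : 0 ≤ m := le_min sa sb
  have hm2 : 1 - m ^ 2 * (1 - w) ≤ c := by
    unfold G at h2 h3
    rcases min_choice (sin a) (sin b) with h | h <;> rw [hm, h]
    · nlinarith [sin_sq_add_cos_sq a]
    · nlinarith [sin_sq_add_cos_sq b]
  have mpos : 0 < m := by
    rcases eq_or_lt_of_le m0 with h | h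
    · rw [← h] at hm2; linarith
    · exact h
  have k1 := sin_ge_min ha hb hax hxb
  have k2 := sin_ge_min ha hb hax' hxb'
  have k3 : m ^ 2 ≤ sin x * sin x' := by
    rw [sq]; exact mul_le_mul k1 k2 m0 (le_trans m0 k1)
  have k4 : 0 < sin x * sin x' := lt_of_lt_of_le (by positivity) k3
  have k5 : cos x * cos x' + sin x * sin x' ≤ 1 := by rw [← cos_sub]; exact cos_le_one _
  unfold G
  nlinarith [mul_lt_mul_of_pos_left hw k4, mul_le_mul_of_nonneg_right k3 (sub_nonneg.2 hw1)]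

lemma far_band {c a b x x' w : ℝ} (hx : 0 ≤ x) (hx' : x' ≤ π) (hxa : x < a) (hab : a ≤ b)
    (hbx : b ≤ x') (hw : w ≤ 1) (h : G a b 1 ≤ c) : G x x' w < c := by
  have sx : 0 ≤ sin x := sin_nonneg_of_nonneg_of_le_pi hx (by linarith)
  have sx' : 0 ≤ sin x' := sin_nonneg_of_nonneg_of_le_pi (by linarith) hx'
  have k1 : cos (x' - x) < cos (b - a) :=
    cos_lt_cos_of_nonneg_of_le_pi (by linarith) (by linarith) (by linarith)
  rw [cos_sub, cos_sub] at k1
  unfold G at *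
  nlinarith [mul_nonneg sx sx']

lemma cell_facts {k : ℕ} (hk : 0 < k) {y : ℝ} (h0 : 0 ≤ y) (h1 : y < 2 * π) :
    (⌊y / (2 * π / (3 * k))⌋₊ : ℝ) * (2 * π / (3 * k)) ≤ y ∧
      y < (⌊y / (2 * π / (3 * k))⌋₊ + 1) * (2 * π / (3 * k)) ∧
      ⌊y / (2 * π / (3 * k))⌋₊ < 3 * k := by
  have hk' : (0 : ℝ) < k := by exact_mod_cast hk
  have hω : 0 < 2 * π / (3 * k) := by positivity
  have hq : 0 ≤ y / (2 * π / (3 * k)) := by positivity
  refine ⟨(le_div_iff₀ hω).1 (Nat.floor_le hq), (div_lt_iff₀ hω).1 (Nat.lt_floor_add_one _), ?_⟩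
  rw [Nat.floor_lt hq, div_lt_iff₀ hω]
  have : ((3 * k : ℕ) : ℝ) * (2 * π / (3 * k)) = 2 * π := by push_cast; field_simp
  rw [this]; exact h1

lemma in_band {c a b x x' y y' : ℝ} {k : ℕ} (hc0 : 0 ≤ c) (hc1 : c < 1) (ha : 0 ≤ a) (hb : b ≤ π)
    (hB : BandOK c a b k) (hax : a ≤ x) (hxb : x ≤ b) (hax' : a ≤ x') (hxb' : x' ≤ b)
    (h0 : 0 ≤ y) (h1 : y < 2 * π) (h0' : 0 ≤ y') (h1' : y' < 2 * π)
    (hle : ⌊y / (2 * π / (3 * k))⌋₊ ≤ ⌊y' / (2 * π / (3 * k))⌋₊)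
    (hj : ⌊y / (2 * π / (3 * k))⌋₊ % 3 = ⌊y' / (2 * π / (3 * k))⌋₊ % 3) :
    G x x' (cos (y - y')) ≠ c := by
  obtain ⟨hk, hab, b1, b2, b3, b4⟩ := hB
  obtain ⟨p1, p2, p3⟩ := cell_facts hk h0 h1
  obtain ⟨q1, q2, q3⟩ := cell_facts hk h0' h1'
  have hk' : (1 : ℝ) ≤ k := by exact_mod_cast hk
  set ω := 2 * π / (3 * k) with hω
  have ωpos : 0 < ω := by positivity
  have ωk : 3 * k * ω = 2 * π := by rw [hω]; field_simp
  set j := ⌊y / ω⌋₊
  set j' := ⌊y' / ω⌋₊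
  rcases eq_or_lt_of_le hle with hjj | hjj
  · have hπ : ω ≤ π := by nlinarith [pi_pos]
    have : cos ω < cos (y - y') := by
      rw [← cos_abs (y - y')]
      refine cos_lt_cos_of_nonneg_of_le_pi (abs_nonneg _) hπ ?_
      rw [← hjj] at q1 q2
      rw [abs_lt]; constructor <;> nlinarith
    exact ne_of_gt (same_cell hc0 ha hb hab hax hxb hax' hxb' this (cos_le_one _) b1 b2 b3)
  · have e1 : j + 3 ≤ j' := by omega
    have e2 : j' + 3 ≤ 3 * k + j := by omega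
    have e3 : 2 ≤ k := by omega
    have e1' : (j : ℝ) + 3 ≤ j' := by exact_mod_cast e1
    have e2' : (j' : ℝ) + 3 ≤ 3 * k + j := by exact_mod_cast e2
    have d1 : 2 * ω < y' - y := by nlinarith
    have d2 : y' - y < 2 * π - 2 * ω := by nlinarith
    have : cos (y - y') < cos (2 * ω) := by
      rw [← cos_neg, neg_sub]
      rcases le_total (y' - y) π with h | h
      · exact cos_lt_cos_of_nonneg_of_le_pi (by linarith) h d1
      · rw [← cos_two_pi_sub]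
        exact cos_lt_cos_of_nonneg_of_le_pi (by linarith) (by linarith) (by linarith)
    exact ne_of_lt (far_cell hc1 ha hb hax hxb hax' hxb' this (cos_le_one _) (b4 e3).1 (b4 e3).2)

theorem bands {c : ℝ} (hc0 : 0 ≤ c) (hc1 : c < 1) (n : ℕ) (ψ : ℕ → ℝ) (k : ℕ → ℕ)
    (h0 : ψ 0 = 0) (hn : ψ n = π) (hB : ∀ i < n, BandOK c (ψ i) (ψ (i + 1)) (k i))
    (hA : ∀ i, i + 3 < n → G (ψ (i + 1)) (ψ (i + 3)) 1 ≤ c) :
    ∃ col : ℝ → ℝ → Fin 3 × Fin 3, ∀ x x' y y', 0 ≤ x → x ≤ π → 0 ≤ x' → x' ≤ π →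
      0 ≤ y → y < 2 * π → 0 ≤ y' → y' < 2 * π → col x y = col x' y' →
      G x x' (cos (y - y')) ≠ c := by
  classical
  have mono : ∀ j ≤ n, ∀ i ≤ j, ψ i ≤ ψ j := by
    intro j
    induction j with
    | zero => intro _ i hi; rw [Nat.le_zero.1 hi]
    | succ j ih =>
      intro hj i hi
      rcases eq_or_lt_of_le hi with h | h
      · rw [h]
      · exact (ih (by omega) i (by omega)).trans (hB j (by omega)).2.1.le
  have npos : 0 < n := by
    rcases Nat.eq_zero_or_pos n with h | h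
    · rw [h, h0] at hn; exact absurd hn pi_pos.ne
    · exact h
  have ex : ∀ x, ∃ i, 0 ≤ x → x ≤ π →
      i < n ∧ ψ i ≤ x ∧ x ≤ ψ (i + 1) ∧ (i + 1 < n → x < ψ (i + 1)) := by
    intro x
    refine ⟨Nat.findGreatest (fun i => ψ i ≤ x) (n - 1), fun hx hx' => ?_⟩
    have l1 := Nat.findGreatest_le (P := fun i => ψ i ≤ x) (n - 1)
    have l2 : ψ (Nat.findGreatest (fun i => ψ i ≤ x) (n - 1)) ≤ x :=
      Nat.findGreatest_spec (P := fun i => ψ i ≤ x) (Nat.zero_le _) (by simpa [h0] using hx)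
    have l3 : Nat.findGreatest (fun i => ψ i ≤ x) (n - 1) + 1 < n →
        x < ψ (Nat.findGreatest (fun i => ψ i ≤ x) (n - 1) + 1) := fun h =>
      not_le.1 (Nat.findGreatest_is_greatest (P := fun i => ψ i ≤ x) (Nat.lt_succ_self _)
        (by omega))
    refine ⟨by omega, l2, ?_, l3⟩
    by_cases h : Nat.findGreatest (fun i => ψ i ≤ x) (n - 1) + 1 < n
    · exact (l3 h).le
    · have : Nat.findGreatest (fun i => ψ i ≤ x) (n - 1) + 1 = n := by omega
      rw [this, hn]; exact hx'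
  choose I hI using ex
  refine ⟨fun x y => (⟨I x % 3, Nat.mod_lt _ (by norm_num)⟩,
    ⟨⌊y / (2 * π / (3 * k (I x)))⌋₊ % 3, Nat.mod_lt _ (by norm_num)⟩), ?_⟩
  have main : ∀ x x' y y', 0 ≤ x → x ≤ π → 0 ≤ x' → x' ≤ π →
      0 ≤ y → y < 2 * π → 0 ≤ y' → y' < 2 * π → I x % 3 = I x' % 3 →
      ⌊y / (2 * π / (3 * k (I x)))⌋₊ % 3 = ⌊y' / (2 * π / (3 * k (I x')))⌋₊ % 3 → I x ≤ I x' →
      G x x' (cos (y - y')) ≠ c := by
    intro x x' y y' a1 a2 a3 a4 a5 a6 a7 a8 e1 e2 hle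
    obtain ⟨p1, p2, p3, p4⟩ := hI x a1 a2
    obtain ⟨q1, q2, q3, q4⟩ := hI x' a3 a4
    rcases eq_or_lt_of_le hle with h | h
    · rw [← h] at q2 q3 e2
      have ha : 0 ≤ ψ (I x) := h0 ▸ mono _ p1.le 0 (Nat.zero_le _)
      have hb : ψ (I x + 1) ≤ π := hn ▸ mono n le_rfl _ p1
      rcases le_total ⌊y / (2 * π / (3 * k (I x)))⌋₊ ⌊y' / (2 * π / (3 * k (I x)))⌋₊ with l | l
      · exact in_band hc0 hc1 ha hb (hB _ p1) p2 p3 q2 q3 a5 a6 a7 a8 l e2
      · rw [G_comm, ← cos_neg, neg_sub]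
        exact in_band hc0 hc1 ha hb (hB _ p1) q2 q3 p2 p3 a7 a8 a5 a6 l e2.symm
    · have e3 : I x + 3 ≤ I x' := by omega
      exact ne_of_lt (far_band a1 a4 (p4 (by omega)) (mono _ (by omega) _ (by omega))
        ((mono _ q1.le _ e3).trans q2) (cos_le_one _) (hA _ (by omega)))
  intro x x' y y' a1 a2 a3 a4 a5 a6 a7 a8 hcol
  simp only [Prod.mk.injEq, Fin.mk.injEq] at hcol
  rcases le_total (I x) (I x') with l | l
  · exact main x x' y y' a1 a2 a3 a4 a5 a6 a7 a8 hcol.1 hcol.2 l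
  · rw [G_comm, ← cos_neg, neg_sub]
    exact main x' x y' y a3 a4 a1 a2 a7 a8 a5 a6 hcol.1.symm hcol.2.symm l

lemma polar {r : ℝ} (hr : 0 < r) (p : Metric.sphere (0 : EuclideanSpace ℝ (Fin 3)) r) :
    ∃ x y : ℝ, 0 ≤ x ∧ x ≤ π ∧ 0 ≤ y ∧ y < 2 * π ∧ p.1 0 = -(r * sin x * cos y) ∧
      p.1 1 = r * sin x * sin y ∧ p.1 2 = r * cos x := by
  have h := (mem_sph hr.le _).1 p.2
  rw [Fin.sum_univ_three] at h
  set u := p.1 0
  set v := p.1 1
  set z := p.1 2
  have hz : -1 ≤ z / r ∧ z / r ≤ 1 := by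
    rw [le_div_iff₀ hr, div_le_iff₀ hr]
    constructor <;> nlinarith [sq_nonneg u, sq_nonneg v]
  set w : ℂ := ⟨u, v⟩ with hw
  have hnorm : ‖w‖ = r * sin (arccos (z / r)) := by
    rw [sin_arccos, Complex.norm_eq_sqrt_sq_add_sq, ← sqrt_sq hr.le, ← sqrt_mul (sq_nonneg _),
      sqrt_sq hr.le]
    congr 1
    simp only [hw]
    field_simp
    linarith
  refine ⟨arccos (z / r), π - w.arg, arccos_nonneg _, arccos_le_pi _,
    by linarith [Complex.arg_le_pi w], by linarith [Complex.neg_pi_lt_arg w], ?_, ?_, ?_⟩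
  · rw [cos_pi_sub, ← hnorm, mul_neg, neg_neg, Complex.norm_mul_cos_arg]
  · rw [sin_pi_sub, ← hnorm, Complex.norm_mul_sin_arg]
  · rw [cos_arccos hz.1 hz.2]; field_simp

theorem colorable_of_bands {r : ℝ} (hr : 0 < r) (hr2 : 1 ≤ 2 * r ^ 2) (n : ℕ) (ψ : ℕ → ℝ)
    (k : ℕ → ℕ) (h0 : ψ 0 = 0) (hn : ψ n = π)
    (hB : ∀ i < n, BandOK (1 - 1 / (2 * r ^ 2)) (ψ i) (ψ (i + 1)) (k i))
    (hA : ∀ i, i + 3 < n → G (ψ (i + 1)) (ψ (i + 3)) 1 ≤ 1 - 1 / (2 * r ^ 2)) :
    (sphG r).Colorable 9 := by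
  have hp : 0 < 2 * r ^ 2 := by positivity
  obtain ⟨col, hcol⟩ := bands (c := 1 - 1 / (2 * r ^ 2))
    (by rw [sub_nonneg, div_le_one hp]; exact hr2) (by have := one_div_pos.2 hp; linarith)
    n ψ k h0 hn hB hA
  choose X Y h1 h2 h3 h4 h5 h6 h7 using polar hr
  have C : (sphG r).Coloring (Fin 3 × Fin 3) := SimpleGraph.Coloring.mk
    (fun p => col (X p) (Y p)) (by
      intro p q hpq hc
      refine hcol _ _ _ _ (h1 p) (h2 p) (h1 q) (h2 q) (h3 p) (h4 p) (h3 q) (h4 q) hc ?_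
      rw [sphG_adj, Fin.sum_univ_three, h5 p, h6 p, h7 p, h5 q, h6 q, h7 q] at hpq
      unfold G
      rw [cos_sub]
      field_simp
      have a1 := sin_sq_add_cos_sq (X p)
      have a2 := sin_sq_add_cos_sq (X q)
      have a3 := sin_sq_add_cos_sq (Y p)
      have a4 := sin_sq_add_cos_sq (Y q)
      linear_combination (-1) * hpq + r ^ 2 * a1 + r ^ 2 * a2 + r ^ 2 * sin (X p) ^ 2 * a3
        + r ^ 2 * sin (X q) ^ 2 * a4)
  simpa using C.colorable

end Pool.Agent.MP_d23910_co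

end MrgPart1

-- ======== part 2: formerly Pool.Agent.MP_d23910_co.Cert
section MrgPart2

set_option autoImplicit false

namespace Pool.Agent.MP_d23910_co

open Real

/-- rational lower bound for the cosine of the cell angle -/
def wlo : ℕ → ℚ
  | 1 => -1 / 2
  | 2 => 1 / 2
  | 3 => 766 / 1000
  | 4 => 866 / 1000
  | k => 1 - (2 * (31416 / 10000) / (3 * k)) ^ 2 / 2

/-- rational upper bound for the cosine of twice the cell angle -/
def whi : ℕ → ℚ
  | 0 => 1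
  | 1 => 1
  | 2 => -1 / 2
  | 3 => 2 * (7661 / 10000) ^ 2 - 1
  | 4 => 1 / 2
  | k => 1 - 2 * (2 * (31415 / 10000) / (3 * k) - (2 * (31415 / 10000) / (3 * k)) ^ 3 / 6) ^ 2

lemma cos40 : 766 / 1000 ≤ cos (2 * π / 9) ∧ cos (2 * π / 9) ≤ 7661 / 10000 := by
  have h3 : cos (3 * (2 * π / 9)) = -1 / 2 := by
    have : 3 * (2 * π / 9) = π - π / 3 := by ring
    rw [this, cos_pi_sub, cos_pi_div_three]; norm_num
  rw [cos_three_mul] at h3
  have h1 : 1 - (2 * π / 9) ^ 2 / 2 ≤ cos (2 * π / 9) := one_sub_sq_div_two_le_cos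
  have hp := pi_lt_d2
  have hp' := pi_pos
  have h2 : 3 / 4 ≤ cos (2 * π / 9) := by nlinarith
  set y := cos (2 * π / 9)
  constructor
  · by_contra h
    push Not at h
    nlinarith [mul_pos (sub_pos.2 h) (show 0 < 4 * (y ^ 2 + 766 / 1000 * y + (766 / 1000) ^ 2) - 3
      by nlinarith)]
  · by_contra h
    push Not at h
    nlinarith [mul_pos (sub_pos.2 h) (show 0 < 4 * (y ^ 2 + 7661 / 10000 * y + (7661 / 10000) ^ 2) - 3
      by nlinarith)]

lemma wlo_gen (k : ℕ) (hk : 0 < k) :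
    1 - (2 * (31416 / 10000) / (3 * (k : ℝ))) ^ 2 / 2 ≤ cos (2 * π / (3 * k)) := by
  have hk' : (0 : ℝ) < k := by exact_mod_cast hk
  refine le_trans ?_ one_sub_sq_div_two_le_cos
  have h1 : 2 * π / (3 * k) ≤ 2 * (31416 / 10000) / (3 * (k : ℝ)) := by
    gcongr; have := pi_lt_d4; norm_num at this ⊢; linarith
  have h0 : 0 ≤ 2 * π / (3 * k) := by positivity
  nlinarith

lemma sin_gen (k : ℕ) (hk : 5 ≤ k) :
    0 ≤ 2 * (31415 / 10000) / (3 * (k : ℝ)) - (2 * (31415 / 10000) / (3 * k)) ^ 3 / 6 ∧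
    2 * (31415 / 10000) / (3 * (k : ℝ)) - (2 * (31415 / 10000) / (3 * k)) ^ 3 / 6 ≤
      sin (2 * π / (3 * k)) := by
  have hk' : (5 : ℝ) ≤ k := by exact_mod_cast hk
  set x : ℝ := 2 * (31415 / 10000) / (3 * (k : ℝ)) with hx
  have x0 : 0 < x := by positivity
  have x1 : x ≤ 1 := by rw [hx, div_le_one (by positivity)]; linarith
  have h1 : x ≤ 2 * π / (3 * k) := by
    rw [hx]; gcongr; have := pi_gt_d4; norm_num at this ⊢; linarith
  have h2 : 2 * π / (3 * k) ≤ π / 2 := by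
    rw [div_le_div_iff₀ (by positivity) (by norm_num)]; nlinarith [pi_pos]
  refine ⟨by nlinarith [mul_pos x0 x0, mul_nonneg x0.le (sub_nonneg.2 x1)], ?_⟩
  exact (sin_gt_sub_cube x0).le.trans
    (sin_le_sin_of_le_of_le_pi_div_two (by linarith [pi_pos]) h2 h1)

lemma wlo_le (k : ℕ) (hk : 0 < k) : (wlo k : ℝ) ≤ cos (2 * π / (3 * k)) := by
  match k, hk with
  | 1, _ =>
    have : 2 * π / (3 * ((1 : ℕ) : ℝ)) = π - π / 3 := by push_cast; ring
    rw [this, cos_pi_sub, cos_pi_div_three]; norm_num [wlo]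
  | 2, _ =>
    have : 2 * π / (3 * ((2 : ℕ) : ℝ)) = π / 3 := by push_cast; ring
    rw [this, cos_pi_div_three]; norm_num [wlo]
  | 3, _ =>
    have : 2 * π / (3 * ((3 : ℕ) : ℝ)) = 2 * π / 9 := by push_cast; ring
    rw [this]; have := cos40.1; norm_num [wlo] at this ⊢; linarith
  | 4, _ =>
    have : 2 * π / (3 * ((4 : ℕ) : ℝ)) = π / 6 := by push_cast; ring
    rw [this, cos_pi_div_six]
    have : (1732 / 1000 : ℝ) ≤ √3 := le_sqrt_of_sq_le (by norm_num)
    norm_num [wlo] at this ⊢; linarith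
  | k + 5, hk =>
    have := wlo_gen (k + 5) hk
    simp only [wlo]
    push_cast at this ⊢
    exact this

lemma le_whi (k : ℕ) : cos (2 * (2 * π / (3 * k))) ≤ (whi k : ℝ) := by
  match k with
  | 0 => simp [whi]
  | 1 => simpa [whi] using cos_le_one _
  | 2 =>
    have : 2 * (2 * π / (3 * ((2 : ℕ) : ℝ))) = π - π / 3 := by push_cast; ring
    rw [this, cos_pi_sub, cos_pi_div_three]; norm_num [whi]
  | 3 =>
    have : 2 * π / (3 * ((3 : ℕ) : ℝ)) = 2 * π / 9 := by push_cast; ring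
    rw [this, cos_two_mul]
    have h := cos40
    simp only [whi]; push_cast
    nlinarith [h.1, h.2]
  | 4 =>
    have : 2 * (2 * π / (3 * ((4 : ℕ) : ℝ))) = π / 3 := by push_cast; ring
    rw [this, cos_pi_div_three]; norm_num [whi]
  | k + 5 =>
    obtain ⟨h0, h1⟩ := sin_gen (k + 5) (by omega)
    rw [cos_two_mul']
    simp only [whi]
    push_cast at h0 h1 ⊢
    nlinarith [sin_sq_add_cos_sq (2 * π / (3 * ((k : ℝ) + 5))), mul_self_le_mul_self h0 h1]

/-- a parallel of the sphere, given by the square of its radius and a hemisphere, or by its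
height -/
inductive B
  | rho (s : Bool) (q : ℚ)
  | zz (t : ℚ)
  deriving DecidableEq

instance : Inhabited B := ⟨B.zz 0⟩

/-- radius of the parallel -/
noncomputable def B.R : B → ℝ → ℝ
  | .rho _ q, _ => √(q : ℝ)
  | .zz t, r => √(r ^ 2 - (t : ℝ) ^ 2)

/-- height of the parallel -/
noncomputable def B.Z : B → ℝ → ℝ
  | .rho s q, r => if s then √(r ^ 2 - q) else -√(r ^ 2 - q)
  | .zz t, _ => t

/-- Newton iteration -/
def nwt : ℕ → ℕ → ℕ → ℕ
  | 0, _, x => x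
  | f + 1, n, x => nwt f n ((x + n / x) / 2)

/-- approximate square root, scaled -/
def apx (x : ℚ) : ℕ := if x ≤ 0 then 0 else nwt 12 (x * 10 ^ 14).floor.toNat (2 * 10 ^ 7)

/-- candidate lower bound of the square root -/
def slo (x : ℚ) : ℚ := ((apx x - 2 : ℕ) : ℚ) / 10 ^ 7

/-- candidate upper bound of the square root -/
def shi (x : ℚ) : ℚ := if x ≤ 0 then 0 else ((apx x + 2 : ℕ) : ℚ) / 10 ^ 7

/-- enclosure -/
structure En where
  /-- lower bound of the squared radius -/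
  pl : ℚ
  /-- upper bound of the squared radius -/
  ph : ℚ
  /-- lower bound of the radius -/
  rl : ℚ
  /-- upper bound of the radius -/
  rh : ℚ
  /-- lower bound of the height -/
  zl : ℚ
  /-- upper bound of the height -/
  zh : ℚ

/-- the enclosure of a parallel for radii between `a` and `b` -/
def B.en : B → ℚ → ℚ → En
  | .rho s q, a, b =>
    if s then ⟨q, q, slo q, shi q, slo (a ^ 2 - q), shi (b ^ 2 - q)⟩
    else ⟨q, q, slo q, shi q, -shi (b ^ 2 - q), -slo (a ^ 2 - q)⟩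
  | .zz t, a, b => ⟨a ^ 2 - t ^ 2, b ^ 2 - t ^ 2, slo (a ^ 2 - t ^ 2), shi (b ^ 2 - t ^ 2), t, t⟩

/-- the candidates are correct -/
def sOK (x y : ℚ) : Bool := 0 ≤ x && slo x ^ 2 ≤ x && y ≤ shi y ^ 2

/-- the enclosure is correct -/
def B.ok : B → ℚ → ℚ → Bool
  | .rho _ q, a, b => sOK q q && sOK (a ^ 2 - q) (b ^ 2 - q)
  | .zz t, a, b => sOK (a ^ 2 - t ^ 2) (b ^ 2 - t ^ 2)

lemma slo_nonneg (x : ℚ) : 0 ≤ slo x := by unfold slo; positivity
lemma shi_nonneg (x : ℚ) : 0 ≤ shi x := by unfold shi; split_ifs <;> positivity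

lemma sOK_spec {x y : ℚ} (h : sOK x y = true) {u : ℝ} (h1 : (x : ℝ) ≤ u) (h2 : u ≤ y) :
    0 ≤ u ∧ (slo x : ℝ) ≤ √u ∧ √u ≤ shi y := by
  simp only [sOK, Bool.and_eq_true, decide_eq_true_eq] at h
  obtain ⟨⟨a1, a2⟩, a3⟩ := h
  have a1' : (0 : ℝ) ≤ x := by exact_mod_cast a1
  have a2' : (slo x : ℝ) ^ 2 ≤ x := by exact_mod_cast a2
  have a3' : (y : ℝ) ≤ (shi y : ℝ) ^ 2 := by exact_mod_cast a3
  have a4 : (0 : ℝ) ≤ shi y := by exact_mod_cast shi_nonneg y
  exact ⟨a1'.trans h1, le_sqrt_of_sq_le (a2'.trans h1), sqrt_le_iff.2 ⟨a4, h2.trans a3'⟩⟩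

/-- soundness of an enclosure -/
def Enc (e : En) (r ρ z : ℝ) : Prop :=
  0 ≤ ρ ∧ ρ ^ 2 + z ^ 2 = r ^ 2 ∧ (e.pl : ℝ) ≤ ρ ^ 2 ∧ ρ ^ 2 ≤ e.ph ∧ (e.rl : ℝ) ≤ ρ ∧ ρ ≤ e.rh ∧
    (e.zl : ℝ) ≤ z ∧ z ≤ e.zh

lemma B.enc (b : B) {a₀ a₁ : ℚ} (h : b.ok a₀ a₁ = true) {r : ℝ} (h0 : (0 : ℝ) ≤ a₀)
    (h1 : (a₀ : ℝ) ≤ r) (h2 : r ≤ a₁) : Enc (b.en a₀ a₁) r (b.R r) (b.Z r) := by
  have e1 : (a₀ : ℝ) ^ 2 ≤ r ^ 2 := by gcongr
  have e2 : r ^ 2 ≤ (a₁ : ℝ) ^ 2 := by gcongr; linarith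
  cases b with
  | rho s q =>
    simp only [B.ok, Bool.and_eq_true] at h
    obtain ⟨p1, p2, p3⟩ := sOK_spec h.1 (u := q) le_rfl le_rfl
    obtain ⟨q1, q2, q3⟩ := sOK_spec h.2 (u := r ^ 2 - q) (by push_cast; linarith)
      (by push_cast; linarith)
    cases s
    · refine ⟨sqrt_nonneg _, ?_, ?_, ?_, p2, p3, ?_, ?_⟩ <;>
        simp [B.R, B.Z, B.en, sq_sqrt p1, sq_sqrt q1, q2, q3]
    · refine ⟨sqrt_nonneg _, ?_, ?_, ?_, p2, p3, ?_, ?_⟩ <;>
        simp [B.R, B.Z, B.en, sq_sqrt p1, sq_sqrt q1, q2, q3]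
  | zz t =>
    simp only [B.ok] at h
    obtain ⟨q1, q2, q3⟩ := sOK_spec h (u := r ^ 2 - t ^ 2) (by push_cast; linarith)
      (by push_cast; linarith)
    refine ⟨sqrt_nonneg _, ?_, ?_, ?_, q2, q3, ?_, ?_⟩ <;>
      simp [B.R, B.Z, B.en, sq_sqrt q1, e1, e2]

lemma trig {r ρ z : ℝ} (hr : 0 < r) (h0 : 0 ≤ ρ) (h : ρ ^ 2 + z ^ 2 = r ^ 2) :
    (-1 ≤ z / r ∧ z / r ≤ 1) ∧ cos (arccos (z / r)) = z / r ∧ sin (arccos (z / r)) = ρ / r := by
  have hz : -1 ≤ z / r ∧ z / r ≤ 1 := by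
    rw [le_div_iff₀ hr, div_le_iff₀ hr]
    constructor <;> nlinarith [sq_nonneg ρ]
  refine ⟨hz, cos_arccos hz.1 hz.2, ?_⟩
  rw [sin_arccos, sqrt_eq_iff_eq_sq (by nlinarith [hz.1, hz.2]) (by positivity)]
  field_simp
  linarith

lemma G_coord {r ρ z ρ' z' : ℝ} (hr : 0 < r) (h0 : 0 ≤ ρ) (h : ρ ^ 2 + z ^ 2 = r ^ 2)
    (h0' : 0 ≤ ρ') (h' : ρ' ^ 2 + z' ^ 2 = r ^ 2) (w : ℝ) :
    G (arccos (z / r)) (arccos (z' / r)) w - (1 - 1 / (2 * r ^ 2)) =
      (1 - ((z - z') ^ 2 + (ρ - ρ') ^ 2 + 2 * ρ * ρ' * (1 - w))) / (2 * r ^ 2) := by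
  obtain ⟨-, a1, a2⟩ := trig hr h0 h
  obtain ⟨-, b1, b2⟩ := trig hr h0' h'
  rw [G, a1, a2, b1, b2]
  field_simp
  linear_combination h + h'

/-- check of one band -/
def bandChk (e e' : En) (k : ℕ) : Bool :=
  0 < k && e'.zh < e.zl &&
    (e.zh - e'.zl) ^ 2 + (max (e.rh - e'.rl) (e'.rh - e.rl)) ^ 2
      + 2 * e.rh * e'.rh * (1 - wlo k) < 1 &&
    2 * e.ph * (1 - wlo k) ≤ 1 && 2 * e'.ph * (1 - wlo k) ≤ 1 &&
    (k < 2 || (whi k ≤ 1 && 1 ≤ 2 * e.pl * (1 - whi k) && 1 ≤ 2 * e'.pl * (1 - whi k)))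

/-- check of a pair of bands -/
def farChk (e e' : En) : Bool :=
  e'.zh ≤ e.zl && 1 ≤ (e.zl - e'.zh) ^ 2 + (max 0 (max (e.rl - e'.rh) (e'.rl - e.rh))) ^ 2

lemma bandChk_spec {e e' : En} {k : ℕ} (h : bandChk e e' k = true) {r ρ z ρ' z' : ℝ} (hr : 0 < r)
    (he : Enc e r ρ z) (he' : Enc e' r ρ' z') :
    BandOK (1 - 1 / (2 * r ^ 2)) (arccos (z / r)) (arccos (z' / r)) k := by
  simp only [bandChk, Bool.and_eq_true, Bool.or_eq_true, decide_eq_true_eq] at h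
  obtain ⟨⟨⟨⟨⟨c1, c2⟩, c3⟩, c4⟩, c5⟩, c6⟩ := h
  obtain ⟨a0, a1, a2, a3, a4, a5, a6, a7⟩ := he
  obtain ⟨b0, b1, b2, b3, b4, b5, b6, b7⟩ := he'
  have c2' : (e'.zh : ℝ) < e.zl := by exact_mod_cast c2
  have c3' : ((e.zh : ℝ) - e'.zl) ^ 2 + (max ((e.rh : ℝ) - e'.rl) (e'.rh - e.rl)) ^ 2
      + 2 * e.rh * e'.rh * (1 - wlo k) < 1 := by exact_mod_cast c3
  have c4' : 2 * (e.ph : ℝ) * (1 - wlo k) ≤ 1 := by exact_mod_cast c4
  have c5' : 2 * (e'.ph : ℝ) * (1 - wlo k) ≤ 1 := by exact_mod_cast c5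
  have hw := wlo_le k c1
  have hw1 := cos_le_one (2 * π / (3 * k))
  set w := cos (2 * π / (3 * k))
  have hp : 0 < 2 * r ^ 2 := by positivity
  have hzz : z' < z := by linarith
  have diag : ∀ {ρ z : ℝ} {p : ℚ}, 0 ≤ ρ → ρ ^ 2 + z ^ 2 = r ^ 2 → ρ ^ 2 ≤ p →
      2 * (p : ℝ) * (1 - wlo k) ≤ 1 →
      1 - 1 / (2 * r ^ 2) ≤ G (arccos (z / r)) (arccos (z / r)) w := by
    intro ρ z p h0 h1 h2 h3
    rw [← sub_nonneg, G_coord hr h0 h1 h0 h1]
    refine div_nonneg ?_ hp.le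
    nlinarith [mul_le_mul h2 (show 1 - w ≤ 1 - wlo k by linarith) (by linarith)
      ((sq_nonneg ρ).trans h2)]
  refine ⟨c1, ?_, ?_, diag a0 a1 a3 c4', diag b0 b1 b3 c5', ?_⟩
  · exact arccos_lt_arccos (trig hr b0 b1).1.1 (by gcongr) (trig hr a0 a1).1.2
  · rw [← sub_pos, G_coord hr a0 a1 b0 b1]
    refine div_pos ?_ hp
    have t1 : (z - z') ^ 2 ≤ ((e.zh : ℝ) - e'.zl) ^ 2 := by gcongr
    have t2 : (ρ - ρ') ^ 2 ≤ (max ((e.rh : ℝ) - e'.rl) (e'.rh - e.rl)) ^ 2 := by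
      refine sq_le_sq' ?_ ?_
      · linarith [le_max_right ((e.rh : ℝ) - e'.rl) (e'.rh - e.rl)]
      · linarith [le_max_left ((e.rh : ℝ) - e'.rl) (e'.rh - e.rl)]
    have t3 : 2 * ρ * ρ' * (1 - w) ≤ 2 * e.rh * e'.rh * (1 - wlo k) := by
      have : (0 : ℝ) ≤ e.rh := a0.trans a5
      have : (0 : ℝ) ≤ e'.rh := b0.trans b5
      gcongr
    linarith
  · intro hk
    obtain ⟨⟨d1, d2⟩, d3⟩ := c6.resolve_left (by omega)
    have d1' : (whi k : ℝ) ≤ 1 := by exact_mod_cast d1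
    have d2' : 1 ≤ 2 * (e.pl : ℝ) * (1 - whi k) := by exact_mod_cast d2
    have d3' : 1 ≤ 2 * (e'.pl : ℝ) * (1 - whi k) := by exact_mod_cast d3
    have hv := le_whi k
    set v := cos (2 * (2 * π / (3 * k)))
    have diag2 : ∀ {ρ z : ℝ} {p : ℚ}, 0 ≤ ρ → ρ ^ 2 + z ^ 2 = r ^ 2 → (p : ℝ) ≤ ρ ^ 2 →
        1 ≤ 2 * (p : ℝ) * (1 - whi k) →
        G (arccos (z / r)) (arccos (z / r)) v ≤ 1 - 1 / (2 * r ^ 2) := by
      intro ρ z p h0 h1 h2 h3
      rw [← sub_nonpos, G_coord hr h0 h1 h0 h1]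
      refine div_nonpos_of_nonpos_of_nonneg ?_ hp.le
      nlinarith [mul_le_mul h2 (show 1 - (whi k : ℝ) ≤ 1 - v by linarith) (by linarith)
        (sq_nonneg ρ)]
    exact ⟨diag2 a0 a1 a2 d2', diag2 b0 b1 b2 d3'⟩

lemma farChk_spec {e e' : En} (h : farChk e e' = true) {r ρ z ρ' z' : ℝ} (hr : 0 < r)
    (he : Enc e r ρ z) (he' : Enc e' r ρ' z') :
    G (arccos (z / r)) (arccos (z' / r)) 1 ≤ 1 - 1 / (2 * r ^ 2) := by
  simp only [farChk, Bool.and_eq_true, decide_eq_true_eq] at h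
  obtain ⟨c1, c2⟩ := h
  obtain ⟨a0, a1, a2, a3, a4, a5, a6, a7⟩ := he
  obtain ⟨b0, b1, b2, b3, b4, b5, b6, b7⟩ := he'
  have c1' : (e'.zh : ℝ) ≤ e.zl := by exact_mod_cast c1
  have c2' : 1 ≤ ((e.zl : ℝ) - e'.zh) ^ 2
      + (max 0 (max ((e.rl : ℝ) - e'.rh) (e'.rl - e.rh))) ^ 2 := by exact_mod_cast c2
  rw [← sub_nonpos, G_coord hr a0 a1 b0 b1]
  refine div_nonpos_of_nonpos_of_nonneg ?_ (by positivity)
  have t1 : ((e.zl : ℝ) - e'.zh) ^ 2 ≤ (z - z') ^ 2 := by gcongr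
  have t2 : (max 0 (max ((e.rl : ℝ) - e'.rh) (e'.rl - e.rh))) ^ 2 ≤ (ρ - ρ') ^ 2 := by
    rw [← sq_abs (ρ - ρ')]
    gcongr
    refine max_le (abs_nonneg _) (max_le ?_ ?_)
    · linarith [le_abs_self (ρ - ρ')]
    · linarith [neg_abs_le (ρ - ρ')]
  linarith

/-- check of a band decomposition for all radii between `a` and `b` -/
def chk (bs : List B) (ks : List ℕ) (a b : ℚ) : Bool :=
  bs.getD 0 default == B.rho true 0 && bs.getD ks.length default == B.rho false 0 &&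
    (List.range (ks.length + 1)).all (fun i => (bs.getD i default).ok a b) &&
    (List.range ks.length).all (fun i =>
      bandChk ((bs.getD i default).en a b) ((bs.getD (i + 1) default).en a b) (ks.getD i 0)) &&
    (List.range (ks.length - 3)).all (fun i =>
      farChk ((bs.getD (i + 1) default).en a b) ((bs.getD (i + 3) default).en a b))

lemma chk_spec {bs : List B} {ks : List ℕ} {a b : ℚ} (h : chk bs ks a b = true) {r : ℝ}
    (h0 : (3 / 4 : ℝ) ≤ a) (h1 : (a : ℝ) ≤ r) (h2 : r ≤ b) : (sphG r).Colorable 9 := by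
  simp only [chk, Bool.and_eq_true, beq_iff_eq, List.all_eq_true, List.mem_range] at h
  obtain ⟨⟨⟨⟨c1, c2⟩, c3⟩, c4⟩, c5⟩ := h
  have hr : 0 < r := by linarith
  have E : ∀ i < ks.length + 1, Enc ((bs.getD i default).en a b) r ((bs.getD i default).R r)
      ((bs.getD i default).Z r) := fun i hi => B.enc _ (c3 i hi) (by linarith) h1 h2
  refine colorable_of_bands hr (by nlinarith) ks.length
    (fun i => arccos ((bs.getD i default).Z r / r)) (fun i => ks.getD i 0) ?_ ?_ ?_ ?_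
  · simp only [c1, B.Z]
    simp [sqrt_sq hr.le, div_self hr.ne']
  · simp only [c2, B.Z]
    simp [sqrt_sq hr.le, neg_div, div_self hr.ne']
  · exact fun i hi => bandChk_spec (c4 i hi) hr (E i (by omega)) (E _ (by omega))
  · exact fun i hi => farChk_spec (c5 i (by omega)) hr (E _ (by omega)) (E _ (by omega))

/-- check on `N` consecutive intervals of length `d` -/
def chkR (bs : List B) (ks : List ℕ) (a d : ℚ) (N : ℕ) : Bool :=
  (List.range N).all fun j => chk bs ks (a + j * d) (a + (j + 1) * d)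

lemma chkR_spec {bs : List B} {ks : List ℕ} {a d b : ℚ} {N : ℕ} (h : chkR bs ks a d N = true)
    (h0 : 3 / 4 ≤ a) (hd : 0 < d) (hb : b = a + N * d) {r : ℝ} (h1 : (a : ℝ) ≤ r) (h2 : r < b) :
    (sphG r).Colorable 9 := by
  simp only [chkR, List.all_eq_true, List.mem_range] at h
  have hd' : (0 : ℝ) < d := by exact_mod_cast hd
  have h0' : (3 / 4 : ℝ) ≤ a := by
    have : ((3 / 4 : ℚ) : ℝ) ≤ a := by exact_mod_cast h0
    simpa using this
  have hq : 0 ≤ (r - a) / d := div_nonneg (by linarith) hd'.le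
  have f1 := (le_div_iff₀ hd').1 (Nat.floor_le hq)
  have f2 := (div_lt_iff₀ hd').1 (Nat.lt_floor_add_one ((r - a) / d))
  have f3 : ⌊(r - a) / d⌋₊ < N := by
    rw [Nat.floor_lt hq, div_lt_iff₀ hd']
    rw [hb] at h2; push_cast at h2; linarith
  refine chk_spec (h _ f3) ?_ ?_ ?_ <;> push_cast
  · have : (0 : ℝ) ≤ ⌊(r - a) / d⌋₊ * d := by positivity
    linarith
  · linarith
  · linarith

end Pool.Agent.MP_d23910_co

end MrgPart2

-- marker of a merged file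
example : 731051 + 57704 = 731051 + 57704 := rfl
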